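import Mathlib

/-! Congruences modulo `e * O` for a subring `O` of a field. -/

namespace Pool.Agent.Helper56.Dac

open Finset

variable {K : Type*} [Field K]

/-- `x ≡ y` modulo `e * O`. -/
def Cg (O : Subring K) (e x y : K) : Prop := ∃ z ∈ O, x - y = e * z

/-- `x` is a unit of `O`. -/
structure IsU (O : Subring K) (x : K) : Prop where
  mem : x ∈ O
  inv_mem : x⁻¹ ∈ O
  ne : x ≠ 0

namespace Cg

variable {O : Subring K} {e x y z w : K}

lemma refl (x : K) : Cg O e x x := ⟨0, O.zero_mem, by simp⟩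

lemma of_eq (h : x = y) : Cg O e x y := h ▸ refl x

lemma symm (h : Cg O e x y) : Cg O e y x := by
  obtain ⟨a, ha, h⟩ := h
  exact ⟨-a, O.neg_mem ha, by linear_combination -h⟩

lemma trans (h1 : Cg O e x y) (h2 : Cg O e y z) : Cg O e x z := by
  obtain ⟨a, ha, h1⟩ := h1
  obtain ⟨b, hb, h2⟩ := h2
  exact ⟨a + b, O.add_mem ha hb, by linear_combination h1 + h2⟩

lemma add (h1 : Cg O e x y) (h2 : Cg O e z w) : Cg O e (x + z) (y + w) := by
  obtain ⟨a, ha, h1⟩ := h1
  obtain ⟨b, hb, h2⟩ := h2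
  exact ⟨a + b, O.add_mem ha hb, by linear_combination h1 + h2⟩

lemma sub (h1 : Cg O e x y) (h2 : Cg O e z w) : Cg O e (x - z) (y - w) := by
  obtain ⟨a, ha, h1⟩ := h1
  obtain ⟨b, hb, h2⟩ := h2
  exact ⟨a - b, O.sub_mem ha hb, by linear_combination h1 - h2⟩

lemma mul (h1 : Cg O e x y) (h2 : Cg O e z w) (hz : z ∈ O) (hy : y ∈ O) :
    Cg O e (x * z) (y * w) := by
  obtain ⟨a, ha, h1⟩ := h1
  obtain ⟨b, hb, h2⟩ := h2
  exact ⟨a * z + y * b, O.add_mem (O.mul_mem ha hz) (O.mul_mem hy hb), by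
    linear_combination z * h1 + y * h2⟩

lemma mul_left (h1 : Cg O e x y) (hz : z ∈ O) : Cg O e (z * x) (z * y) := by
  obtain ⟨a, ha, h1⟩ := h1
  exact ⟨z * a, O.mul_mem hz ha, by linear_combination z * h1⟩

lemma mul_right (h1 : Cg O e x y) (hz : z ∈ O) : Cg O e (x * z) (y * z) := by
  rw [mul_comm x, mul_comm y]
  exact h1.mul_left hz

lemma inv (h : Cg O e x y) (hx : IsU O x) (hy : IsU O y) : Cg O e x⁻¹ y⁻¹ := by
  obtain ⟨a, ha, h⟩ := h
  refine ⟨-(a * (x⁻¹ * y⁻¹)), O.neg_mem (O.mul_mem ha (O.mul_mem hx.inv_mem hy.inv_mem)), ?_⟩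
  have hx0 := hx.ne
  have hy0 := hy.ne
  field_simp
  linear_combination -h

lemma pow (h : Cg O e x y) (hx : x ∈ O) (hy : y ∈ O) (n : ℕ) : Cg O e (x ^ n) (y ^ n) := by
  induction n with
  | zero => simpa using refl 1
  | succ n ih =>
    rw [pow_succ, pow_succ]
    exact ih.mul h hx (O.pow_mem hy n)

lemma prod {f g : ℕ → K} (k : ℕ) (h : ∀ i < k, Cg O e (f i) (g i)) (hf : ∀ i < k, f i ∈ O)
    (hg : ∀ i < k, g i ∈ O) : Cg O e (∏ i ∈ range k, f i) (∏ i ∈ range k, g i) := by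
  induction k with
  | zero => simpa using refl 1
  | succ k ih =>
    rw [prod_range_succ, prod_range_succ]
    refine (ih (fun i hi => h i (by omega)) (fun i hi => hf i (by omega))
      (fun i hi => hg i (by omega))).mul (h k (by omega)) (hf k (by omega)) ?_
    exact O.prod_mem (fun i hi => hg i (by have := mem_range.mp hi; omega))

lemma sum {f g : ℕ → K} (k : ℕ) (h : ∀ i < k, Cg O e (f i) (g i)) :
    Cg O e (∑ i ∈ range k, f i) (∑ i ∈ range k, g i) := by
  induction k with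
  | zero => simpa using refl 0
  | succ k ih =>
    rw [sum_range_succ, sum_range_succ]
    exact (ih (fun i hi => h i (by omega))).add (h k (by omega))

/-- From mod `e` to mod `e^2` after multiplication by `e * w`. -/
lemma mul_e (h : Cg O e x y) (hw : w ∈ O) : Cg O (e ^ 2) (e * w * x) (e * w * y) := by
  obtain ⟨a, ha, h⟩ := h
  exact ⟨w * a, O.mul_mem hw ha, by linear_combination e * w * h⟩

lemma of_sq (h : Cg O (e ^ 2) x y) (he : e ∈ O) : Cg O e x y := by
  obtain ⟨a, ha, h⟩ := h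
  exact ⟨e * a, O.mul_mem he ha, by linear_combination h⟩

end Cg

namespace IsU

variable {O : Subring K} {x y : K}

lemma one : IsU O 1 := ⟨O.one_mem, by simpa using O.one_mem, one_ne_zero⟩

lemma mul (hx : IsU O x) (hy : IsU O y) : IsU O (x * y) :=
  ⟨O.mul_mem hx.mem hy.mem, by rw [mul_inv]; exact O.mul_mem hx.inv_mem hy.inv_mem,
    mul_ne_zero hx.ne hy.ne⟩

lemma inv (hx : IsU O x) : IsU O x⁻¹ := ⟨hx.inv_mem, by simpa using hx.mem, inv_ne_zero hx.ne⟩

lemma neg (hx : IsU O x) : IsU O (-x) :=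
  ⟨O.neg_mem hx.mem, by rw [inv_neg]; exact O.neg_mem hx.inv_mem, neg_ne_zero.mpr hx.ne⟩

lemma pow (hx : IsU O x) (n : ℕ) : IsU O (x ^ n) :=
  ⟨O.pow_mem hx.mem n, by rw [← inv_pow]; exact O.pow_mem hx.inv_mem n, pow_ne_zero n hx.ne⟩

lemma prod {f : ℕ → K} (k : ℕ) (h : ∀ i < k, IsU O (f i)) : IsU O (∏ i ∈ range k, f i) := by
  induction k with
  | zero => simpa using one
  | succ k ih =>
    rw [prod_range_succ]
    exact (ih (fun i hi => h i (by omega))).mul (h k (by omega))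

end IsU

end Pool.Agent.Helper56.Dac
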