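import Mathlib

/-! Terminating very-well-poised sum (a limiting case of the 6-phi-5 summation), proved by a WZ pair. -/

namespace Pool.Agent.Helper56.Dac

open Finset

variable {K : Type*} [Field K]

/-- q-Pochhammer product with base `p`. -/
def P (p x : K) (k : ℕ) : K := ∏ i ∈ range k, (1 - x * p ^ i)

lemma P_zero (p x : K) : P p x 0 = 1 := by simp [P]

lemma P_succ (p x : K) (k : ℕ) : P p x (k + 1) = P p x k * (1 - x * p ^ k) := by
  simp [P, prod_range_succ]

lemma P_succ' (p x : K) (k : ℕ) : P p x (k + 1) = (1 - x) * P p (x * p) k := by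
  simp only [P, prod_range_succ']
  rw [mul_comm]
  congr 1
  · simp
  · apply prod_congr rfl
    intro i _
    ring

lemma P_ne_zero (p x : K) (k : ℕ) (h : ∀ i < k, 1 - x * p ^ i ≠ 0) : P p x k ≠ 0 := by
  rw [P, prod_ne_zero_iff]
  intro i hi
  exact h i (mem_range.mp hi)

/-- The normalised summand. -/
def F (A c p : K) (N k : ℕ) : K :=
  (1 - A * p ^ (2 * k)) * P p A k * P p c k * P p (p⁻¹ ^ N) k /
      (P p p k * P p (A * p / c) k * P p (A * p ^ (N + 1)) k) *
    ((-1) ^ k * p ^ (k * (k - 1) / 2) * (A * p ^ (N + 1) / c) ^ k) *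
    (P p (A * p / c) N / P p A (N + 1))

/-- The certificate (shifted). -/
def H (A c p : K) (N k : ℕ) : K :=
  - ((A * p ^ (N + 1) / c) ^ (k + 1) * (-1) ^ k * p ^ (k * (k + 1) / 2)) *
    (P p (A * p) k * P p c (k + 1) * P p (p⁻¹ ^ N) k /
      (P p p k * P p (A * p / c) k * P p (A * p ^ (N + 2)) k)) *
    (P p (A * p / c) N / P p (A * p) (N + 1))

theorem wz (A c p : K) (hc : c ≠ 0) (hp : p ≠ 0)
    (h1 : ∀ i : ℕ, 1 - p * p ^ i ≠ 0) (h2 : ∀ i : ℕ, 1 - A * p ^ i ≠ 0)
    (h3 : ∀ i : ℕ, 1 - A * p / c * p ^ i ≠ 0) (N k : ℕ) :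
    ∑ i ∈ range (k + 1), (F A c p (N + 1) i - F A c p N i) = H A c p N k := by
  have hP1 : ∀ m, P p p m ≠ 0 := fun m => P_ne_zero _ _ _ (fun i _ => h1 i)
  have hPA : ∀ m, P p A m ≠ 0 := fun m => P_ne_zero _ _ _ (fun i _ => h2 i)
  have hPA' : ∀ m j, P p (A * p ^ j) m ≠ 0 := fun m j => P_ne_zero _ _ _ (fun i _ => by
    have := h2 (j + i)
    rwa [pow_add, ← mul_assoc] at this)
  have hPA1 : ∀ m, P p (A * p) m ≠ 0 := fun m => by simpa using hPA' m 1
  have hPc : ∀ m, P p (A * p / c) m ≠ 0 := fun m => P_ne_zero _ _ _ (fun i _ => h3 i)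
  have hA0 : 1 - A ≠ 0 := by simpa using h2 0
  induction k with
  | zero =>
    simp only [zero_add, sum_range_one, F, H, P_zero, mul_zero, pow_zero, mul_one, zero_mul,
      Nat.zero_div, div_one, pow_one, one_mul]
    rw [P_succ' p A (N + 1), P_succ' p A N, P_succ p (A * p / c) N, P_succ p (A * p) N, P_succ p c 0, P_zero]
    have e1 := hPA1 N
    have e2 := hPA1 (N + 1)
    rw [P_succ] at e2
    have e3 : 1 - A * p * p ^ N ≠ 0 := by
      have := h2 (N + 1)
      rwa [pow_succ', ← mul_assoc] at this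
    have e4 := hPc N
    field_simp
    ring
  | succ k ih =>
    rw [sum_range_succ, ih]
    have hk1 : (k + 1) * (k + 1 - 1) / 2 = k * (k + 1) / 2 := by
      simp [mul_comm]
    have hk2 : (k + 1) * (k + 1 + 1) / 2 = k * (k + 1) / 2 + (k + 1) := by
      have : (k + 1) * (k + 1 + 1) = k * (k + 1) + 2 * (k + 1) := by ring
      rw [this, Nat.add_mul_div_left _ _ (by norm_num)]
    have hB : P p (p⁻¹ ^ (N + 1)) (k + 1) = (1 - p⁻¹ ^ (N + 1)) * P p (p⁻¹ ^ N) k := by
      rw [P_succ']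
      congr 2
      rw [pow_succ, mul_assoc, inv_mul_cancel₀ hp, mul_one]
    have hf : P p (A * p ^ (N + 1)) (k + 1) = (1 - A * p ^ (N + 1)) * P p (A * p ^ (N + 2)) k := by
      rw [P_succ']
      congr 2
      ring
    simp only [F, H]
    rw [hk1, hk2, hB, show N + 1 + 1 = N + 2 from rfl, hf]
    rw [P_succ' p A (N + 1), P_succ' p A N, P_succ p (A * p / c) N, P_succ p (A * p) N,
      P_succ p p k, P_succ p (A * p / c) k, P_succ p (A * p ^ (N + 2)) k, P_succ' p A k,
      P_succ p (A * p) k, P_succ p c (k + 1), P_succ p (p⁻¹ ^ N) k]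
    have g1 := hP1 k
    have g2 := hPc k
    have g3 := hPA' k (N + 2)
    have g4 := hPA1 N
    have g5 := hPc N
    have q1 : 1 - p * p ^ k ≠ 0 := h1 k
    have q2 : 1 - A * p / c * p ^ k ≠ 0 := h3 k
    have q3 : 1 - A * p ^ (N + 2) * p ^ k ≠ 0 := by
      have := h2 (N + 2 + k)
      rwa [pow_add, ← mul_assoc] at this
    have q4 : 1 - A * p ^ (N + 1) ≠ 0 := h2 (N + 1)
    have q5 : 1 - A * p * p ^ N ≠ 0 := by
      have := h2 (N + 1)
      rwa [pow_succ', ← mul_assoc] at this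
    have q6 : 1 - A * p / c * p ^ N ≠ 0 := h3 N
    -- abbreviations
    generalize P p p k = d at *
    generalize P p (A * p / c) k = e at *
    generalize P p (A * p ^ (N + 2)) k = f at *
    generalize P p (A * p) N = h at *
    generalize P p (A * p / c) N = g at *
    generalize P p (A * p) k = a at *
    generalize P p c (k + 1) = cc at *
    generalize P p (p⁻¹ ^ N) k = b at *
    have hy : p ^ N ≠ 0 := pow_ne_zero _ hp
    have hx : p ^ k ≠ 0 := pow_ne_zero _ hp
    have r1 : p ^ (2 * (k + 1)) = (p ^ k) ^ 2 * p ^ 2 := by ring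
    have r2 : p⁻¹ ^ (N + 1) = (p ^ N)⁻¹ * p⁻¹ := by rw [pow_succ, inv_pow]
    have r3 : p⁻¹ ^ N = (p ^ N)⁻¹ := by rw [inv_pow]
    have r4 : p ^ (N + 2) = p ^ N * p ^ 2 := by ring
    have r5 : p ^ (N + 1) = p ^ N * p := by ring
    have r6 : p ^ (k * (k + 1) / 2 + (k + 1)) = p ^ (k * (k + 1) / 2) * (p ^ k * p) := by ring
    have r7 : p ^ (k + 1) = p ^ k * p := by ring
    have r8 : (A * (p ^ N * p ^ 2) / c) ^ (k + 1) = (A * (p ^ N * p) / c) ^ (k + 1) * (p ^ k * p) := by
      rw [← r7, ← mul_pow]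
      congr 1
      ring
    have r9 : (A * (p ^ N * p) / c) ^ (k + 1 + 1) = (A * (p ^ N * p) / c) ^ (k + 1) * (A * (p ^ N * p) / c) := by
      ring
    have r10 : ((-1 : K)) ^ (k + 1) = - (-1) ^ k := by ring
    rw [r1, r2, r3, r6, r10]
    rw [r4] at q3 ⊢
    rw [r5] at q4 ⊢
    rw [r7, r8, r9]
    generalize (A * (p ^ N * p) / c) ^ (k + 1) = T at *
    generalize p ^ (k * (k + 1) / 2) = U at *
    generalize ((-1 : K)) ^ k = S at *
    generalize p ^ N = y at *
    generalize p ^ k = x at *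
    have q2' : c - A * p * x ≠ 0 := by
      intro h0
      apply q2
      field_simp
      linear_combination h0
    have q6' : c - A * p * y ≠ 0 := by
      intro h0
      apply q6
      field_simp
      linear_combination h0
    have s2 : 1 - A * p / c * x = (c - A * p * x) / c := by field_simp
    have s6 : 1 - A * p / c * y = (c - A * p * y) / c := by field_simp
    rw [s2, s6]
    have q3' : 1 - A * p ^ 2 * y * x ≠ 0 := by
      intro h0
      apply q3
      linear_combination h0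
    field_simp
    ring

theorem sum_F (A c p : K) (hc : c ≠ 0) (hp : p ≠ 0)
    (h1 : ∀ i : ℕ, 1 - p * p ^ i ≠ 0) (h2 : ∀ i : ℕ, 1 - A * p ^ i ≠ 0)
    (h3 : ∀ i : ℕ, 1 - A * p / c * p ^ i ≠ 0) (N : ℕ) :
    ∑ i ∈ range (N + 1), F A c p N i = 1 := by
  induction N with
  | zero =>
    have hA0 : 1 - A ≠ 0 := by simpa using h2 0
    simp [F, P]
    field_simp
  | succ N ih =>
    have key := wz A c p hc hp h1 h2 h3 N (N + 1)
    have hz : P p (p⁻¹ ^ N) (N + 1) = 0 := by
      rw [P_succ, ← mul_pow, inv_mul_cancel₀ hp]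
      simp
    have hH : H A c p N (N + 1) = 0 := by
      unfold H
      rw [hz]
      simp
    have hF : F A c p N (N + 1) = 0 := by
      unfold F
      rw [hz]
      simp
    rw [hH, sum_sub_distrib, sum_range_succ (fun i => F A c p N i) (N + 1), hF, ih, add_zero,
      sub_eq_zero] at key
    exact key

end Pool.Agent.Helper56.Dac
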