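import Mathlib
import Pool.Agent.Helper56.Dac.WZ
import Pool.Agent.Helper56.Dac.Cong

/-! The block congruence. -/

namespace Pool.Agent.Helper56.Dac

open Finset

variable {K : Type*} [Field K]

/-- Assumptions on the local ring `O` and the element `q`; `n = 2N+1`. -/
structure Good (O : Subring K) (q : K) (N : ℕ) : Prop where
  hN : 1 ≤ N
  hq : IsU O q
  hU : ∀ i : ℕ, ¬ (2 * N + 1) ∣ i → IsU O (1 - q ^ i)
  hS : ∀ k : ℕ, 1 ≤ k → IsU O (∑ t ∈ range k, (q ^ (2 * N + 1)) ^ t)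
  hne : ∀ i : ℕ, 1 ≤ i → 1 - q ^ i ≠ 0
  hnat : ∀ k : ℕ, 1 ≤ k → IsU O (k : K)

section

variable {O : Subring K} {q : K} {N : ℕ}

lemma Good.u_unit (h : Good O q N) : IsU O (q ^ (2 * N + 1)) := h.hq.pow _

/-- `e = q^n - 1`. -/
lemma Good.e_mem (h : Good O q N) : q ^ (2 * N + 1) - 1 ∈ O :=
  O.sub_mem h.u_unit.mem O.one_mem

lemma cg_u_one (O : Subring K) (u : K) : Cg O (u - 1) u 1 := ⟨1, O.one_mem, by ring⟩

lemma cg_upow (O : Subring K) {u : K} (hu : u ∈ O) (k : ℕ) :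
    Cg O ((u - 1) ^ 2) (u ^ k) (1 + k * (u - 1)) := by
  induction k with
  | zero => exact Cg.of_eq (by simp)
  | succ k ih =>
    obtain ⟨z, hz, h⟩ := ih
    refine ⟨z * u + k, O.add_mem (O.mul_mem hz hu) (natCast_mem O k), ?_⟩
    rw [pow_succ]
    push_cast
    linear_combination u * h

lemma cg_upow_one (O : Subring K) {u : K} (hu : u ∈ O) (k : ℕ) :
    Cg O (u - 1) (u ^ k) 1 := by
  have := (cg_u_one O u).pow hu O.one_mem k
  simpa using this

lemma cg_uinv (O : Subring K) {u : K} (hu : IsU O u) :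
    Cg O ((u - 1) ^ 2) u⁻¹ (1 - (u - 1)) := by
  refine ⟨u⁻¹, hu.inv_mem, ?_⟩
  have := hu.ne
  field_simp
  ring

lemma cg_geom (O : Subring K) {u : K} (hu : u ∈ O) (k : ℕ) :
    Cg O (u - 1) (∑ t ∈ range k, u ^ t) (k : K) := by
  have := Cg.sum (O := O) (e := u - 1) (f := fun t => u ^ t) (g := fun _ => 1) k
    (fun i _ => cg_upow_one O hu i)
  simpa using this

lemma Good.unit_u_sub (h : Good O q N) (m : ℕ) (hm : ¬ (2 * N + 1) ∣ m) :
    IsU O (q ^ (2 * N + 1) - q ^ m) := by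
  rcases le_total (2 * N + 1) m with hle | hle
  · obtain ⟨d, rfl⟩ := Nat.exists_eq_add_of_le hle
    have hd : ¬ (2 * N + 1) ∣ d := by
      intro hd
      exact hm ((Nat.dvd_add_right (dvd_refl _)).mpr hd)
    have : q ^ (2 * N + 1) - q ^ (2 * N + 1 + d) = q ^ (2 * N + 1) * (1 - q ^ d) := by ring
    rw [this]
    exact (h.hq.pow _).mul (h.hU d hd)
  · obtain ⟨d, hd0⟩ := Nat.exists_eq_add_of_le hle
    have hd : ¬ (2 * N + 1) ∣ d := by
      intro hd
      apply hm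
      have h2 : (2 * N + 1) ∣ m + d := by rw [← hd0]
      exact (Nat.dvd_add_left hd).mp h2
    have : q ^ (2 * N + 1) - q ^ m = -(q ^ m * (1 - q ^ d)) := by
      rw [hd0]; ring
    rw [this]
    exact ((h.hq.pow _).mul (h.hU d hd)).neg

lemma Good.u_sub_ne (h : Good O q N) (m : ℕ) (hm : m ≠ 2 * N + 1) :
    q ^ (2 * N + 1) - q ^ m ≠ 0 := by
  rcases le_total (2 * N + 1) m with hle | hle
  · obtain ⟨d, rfl⟩ := Nat.exists_eq_add_of_le hle
    have : q ^ (2 * N + 1) - q ^ (2 * N + 1 + d) = q ^ (2 * N + 1) * (1 - q ^ d) := by ring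
    rw [this]
    exact mul_ne_zero (pow_ne_zero _ h.hq.ne) (h.hne d (by omega))
  · obtain ⟨d, hd0⟩ := Nat.exists_eq_add_of_le hle
    have : q ^ (2 * N + 1) - q ^ m = -(q ^ m * (1 - q ^ d)) := by
      rw [hd0]; ring
    rw [this]
    exact neg_ne_zero.mpr (mul_ne_zero (pow_ne_zero _ h.hq.ne) (h.hne d (by omega)))

/-- `u^k q^m` with `n ∤ m`: `1 - u^k q^m` is a unit. -/
lemma Good.unit_one_sub (h : Good O q N) (k m : ℕ) (hm : ¬ (2 * N + 1) ∣ m) :
    IsU O (1 - (q ^ (2 * N + 1)) ^ k * q ^ m) := by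
  rw [← pow_mul, ← pow_add]
  apply h.hU
  intro hd
  exact hm ((Nat.dvd_add_right (Dvd.intro k rfl)).mp hd)

lemma Good.unit_one_sub_inv (h : Good O q N) (k m : ℕ) (hm : ¬ (2 * N + 1) ∣ m) :
    IsU O (1 - (q ^ (2 * N + 1)) ^ k * (q ^ (2 * N + 1))⁻¹ * q ^ m) := by
  have h1 := h.u_unit
  have h0 := h1.ne
  have : 1 - (q ^ (2 * N + 1)) ^ k * (q ^ (2 * N + 1))⁻¹ * q ^ m =
      (q ^ (2 * N + 1))⁻¹ * (q ^ (2 * N + 1) - q ^ ((2 * N + 1) * k + m)) := by
    have e : q ^ ((2 * N + 1) * k + m) = (q ^ (2 * N + 1)) ^ k * q ^ m := by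
      rw [pow_add, pow_mul]
    rw [e]
    generalize q ^ (2 * N + 1) = u at *
    field_simp
  rw [this]
  refine h1.inv.mul (h.unit_u_sub _ ?_)
  intro hd
  exact hm ((Nat.dvd_add_right (Dvd.intro k rfl)).mp hd)

lemma not_dvd_small {N m : ℕ} (h1 : 1 ≤ m) (h2 : m < 2 * N + 1) : ¬ (2 * N + 1) ∣ m :=
  fun h => absurd (Nat.le_of_dvd (by omega) h) (by omega)

/-- For `i + 1 < n`, `n` does not divide `2i+2` (`n` odd). -/
lemma not_dvd_even {N i : ℕ} (h2 : i + 1 < 2 * N + 1) : ¬ (2 * N + 1) ∣ (2 * i + 2) := by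
  intro h
  have h3 : (2 * N + 1) ∣ 2 * (i + 1) := by rwa [show 2 * (i + 1) = 2 * i + 2 from by ring]
  have hc : Nat.Coprime (2 * N + 1) 2 := by
    rw [Nat.coprime_two_right]
    exact ⟨N, rfl⟩
  have := hc.dvd_of_dvd_mul_left h3
  exact absurd (Nat.le_of_dvd (by omega) this) (by omega)

/-- The zero-order evaluation of the quotient of products. -/
lemma Good.zero_order (h : Good O q N) :
    Cg O (q ^ (2 * N + 1) - 1) (∏ i ∈ range N, (1 - q ^ (2 * i + 1)))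
      ((-1) ^ N * q ^ (N ^ 2) * ∏ i ∈ range N, (1 - q ^ (2 * i + 2))) := by
  set u := q ^ (2 * N + 1) with hu
  have hqm := h.hq.mem
  have hXm : ∏ i ∈ range N, (1 - q ^ (2 * i + 1)) ∈ O :=
    O.prod_mem (fun i _ => O.sub_mem O.one_mem (O.pow_mem hqm _))
  have e1 : (∏ i ∈ range N, q ^ (2 * i + 2)) * ∏ i ∈ range N, (1 - q ^ (2 * i + 1)) =
      ∏ i ∈ range N, (q ^ (2 * i + 2) - u) := by
    rw [← prod_range_reflect (fun i => 1 - q ^ (2 * i + 1)) N, ← prod_mul_distrib]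
    apply prod_congr rfl
    intro i hi
    have hi' := mem_range.mp hi
    rw [mul_sub, mul_one, ← pow_add, hu]
    congr 2
    omega
  have e2 : Cg O (u - 1) (∏ i ∈ range N, (q ^ (2 * i + 2) - u))
      (∏ i ∈ range N, (-(1 - q ^ (2 * i + 2)))) := by
    apply Cg.prod
    · intro i _
      refine ⟨-1, O.neg_mem O.one_mem, by ring⟩
    · intro i _
      exact O.sub_mem (O.pow_mem hqm _) h.u_unit.mem
    · intro i _
      exact O.neg_mem (O.sub_mem O.one_mem (O.pow_mem hqm _))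
  have e3 : ∏ i ∈ range N, (-(1 - q ^ (2 * i + 2))) = (-1) ^ N * ∏ i ∈ range N, (1 - q ^ (2 * i + 2)) := by
    rw [prod_neg]
    simp
  have e4 : q ^ (N ^ 2) * ∏ i ∈ range N, q ^ (2 * i + 2) = u ^ N := by
    have : ∏ i ∈ range N, q ^ (2 * i + 2) = q ^ (N ^ 2 + N) := by
      rw [prod_pow_eq_pow_sum]
      congr 1
      clear * -
      induction N with
      | zero => rfl
      | succ N ih => rw [sum_range_succ, ih]; ring
    rw [this, ← pow_add, hu, ← pow_mul]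
    congr 1
    ring
  have e5 : Cg O (u - 1) (q ^ (N ^ 2) * ((∏ i ∈ range N, q ^ (2 * i + 2)) *
      ∏ i ∈ range N, (1 - q ^ (2 * i + 1))))
      (q ^ (N ^ 2) * ((-1) ^ N * ∏ i ∈ range N, (1 - q ^ (2 * i + 2)))) := by
    rw [e1, ← e3]
    exact e2.mul_left (O.pow_mem hqm _)
  rw [← mul_assoc, e4] at e5
  have e6 : Cg O (u - 1) (u ^ N * ∏ i ∈ range N, (1 - q ^ (2 * i + 1)))
      (1 * ∏ i ∈ range N, (1 - q ^ (2 * i + 1))) :=
    (cg_upow_one O h.u_unit.mem N).mul_right hXm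
  rw [one_mul] at e6
  refine (e6.symm.trans e5).trans (Cg.of_eq ?_)
  ring

end

end Pool.Agent.Helper56.Dac
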