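import Mathlib
import Pool.Agent.Helper56.Dac.Main

/-! The block congruence, continued. -/

namespace Pool.Agent.Helper56.Dac

open Finset

variable {K : Type*} [Field K] {O : Subring K} {q : K} {N : ℕ}

/-- `(q;q^2)_k / (q^2;q^2)_k`. -/
def B (q : K) (k : ℕ) : K :=
  (∏ i ∈ range k, (1 - q ^ (2 * i + 1))) / ∏ i ∈ range k, (1 - q ^ (2 * i + 2))

/-- `(1/2)_j / j!` -/
def bet (K : Type*) [Field K] (j : ℕ) : K := ∏ l ∈ range j, ((2 * l + 1 : ℕ) : K) / ((2 * l + 2 : ℕ) : K)

lemma B_split (q : K) (M r : ℕ) :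
    B q (M + r) = B q M * ((∏ i ∈ range r, (1 - q ^ (2 * M) * q ^ (2 * i + 1))) /
      ∏ i ∈ range r, (1 - q ^ (2 * M) * q ^ (2 * i + 2))) := by
  unfold B
  rw [prod_range_add, prod_range_add, mul_div_mul_comm]
  congr 2
  · apply prod_congr rfl
    intro i _
    rw [← pow_add]
    congr 2
    ring
  · apply prod_congr rfl
    intro i _
    rw [← pow_add]
    congr 2
    ring

lemma geom_ratio {u : K} (hu : u - 1 ≠ 0) (k : ℕ)
    (h : 1 - u ^ (k + 1) ≠ 0) :
    (1 - u ^ k) / (1 - u ^ (k + 1)) = (∑ t ∈ range k, u ^ t) / ∑ t ∈ range (k + 1), u ^ t := by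
  have e1 := geom_sum_mul u k
  have e2 := geom_sum_mul u (k + 1)
  have hg : (∑ t ∈ range (k + 1), u ^ t) ≠ 0 := by
    intro h0
    rw [h0, zero_mul] at e2
    apply h
    linear_combination e2
  rw [div_eq_div_iff h hg]
  have : (1 - u ^ k) * (∑ t ∈ range (k + 1), u ^ t) * (u - 1) =
      (∑ t ∈ range k, u ^ t) * (1 - u ^ (k + 1)) * (u - 1) := by
    linear_combination (1 - u ^ k) * e2 - (1 - u ^ (k + 1)) * e1
  exact mul_right_cancel₀ hu this

lemma Good.B_block (h : Good O q N) (j : ℕ) :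
    IsU O (B q ((2 * N + 1) * j)) ∧
    Cg O (q ^ (2 * N + 1) - 1) (B q ((2 * N + 1) * j)) (bet K j) := by
  have hqm := h.hq.mem
  set u := q ^ (2 * N + 1) with hu
  have huU : IsU O u := h.u_unit
  induction j with
  | zero => exact ⟨by simpa [B] using IsU.one, Cg.of_eq (by simp [B, bet])⟩
  | succ j ih =>
    obtain ⟨ihU, ihC⟩ := ih
    set a := u ^ (2 * j) with ha
    have haq : q ^ (2 * ((2 * N + 1) * j)) = a := by
      rw [ha, hu, ← pow_mul]
      congr 1
      ring
    -- numerator product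
    have hnum : ∏ i ∈ range (2 * N + 1), (1 - a * q ^ (2 * i + 1)) =
        (∏ i ∈ range N, (1 - a * q ^ (2 * i + 1))) * (1 - u ^ (2 * j + 1)) *
          ∏ i ∈ range N, (1 - u ^ (2 * j + 1) * q ^ (2 * i + 2)) := by
      rw [show 2 * N + 1 = (N + 1) + N from by ring, prod_range_add, prod_range_succ]
      congr 1
      · congr 1
        rw [ha, pow_succ u (2 * j), hu]
      · apply prod_congr rfl
        intro i _
        rw [ha, pow_succ u (2 * j), mul_assoc]
        congr 2
        rw [hu, ← pow_add]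
        congr 1
        ring
    have hden : ∏ i ∈ range (2 * N + 1), (1 - a * q ^ (2 * i + 2)) =
        (∏ i ∈ range N, (1 - a * q ^ (2 * i + 2))) *
          (∏ i ∈ range N, (1 - u ^ (2 * j + 1) * q ^ (2 * i + 1))) * (1 - u ^ (2 * j + 1 + 1)) := by
      rw [prod_range_succ, show 2 * N = N + N from by ring, prod_range_add]
      congr 1
      · congr 1
        apply prod_congr rfl
        intro i _
        rw [ha, pow_succ u (2 * j), mul_assoc]
        congr 2
        rw [hu, ← pow_add]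
        congr 1
        ring
      · rw [ha, show 2 * j + 1 + 1 = 2 * j + 2 from rfl, pow_add u (2 * j) 2]
        congr 2
        rw [hu, ← pow_mul]
        congr 1
        ring
    have hu1 : u - 1 ≠ 0 := by
      have := h.hne (2 * N + 1) (by omega)
      intro h0
      apply this
      linear_combination -h0
    have hu2 : ∀ k, 1 - u ^ (k + 1) ≠ 0 := by
      intro k
      rw [hu, ← pow_mul]
      exact h.hne _ (Nat.one_le_iff_ne_zero.mpr (by positivity))
    have hunit1 : ∀ k i, i < N → IsU O (1 - u ^ k * q ^ (2 * i + 1)) := fun k i hi =>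
      h.unit_one_sub k _ (not_dvd_small (by omega) (by omega))
    have hunit2 : ∀ k i, i < N → IsU O (1 - u ^ k * q ^ (2 * i + 2)) := fun k i hi =>
      h.unit_one_sub k _ (not_dvd_small (by omega) (by omega))
    set G1 := ∑ t ∈ range (2 * j + 1), u ^ t with hG1
    set G2 := ∑ t ∈ range (2 * j + 1 + 1), u ^ t with hG2
    have hG1U : IsU O G1 := h.hS _ (by omega)
    have hG2U : IsU O G2 := h.hS _ (by omega)
    set X1 := ∏ i ∈ range N, (1 - a * q ^ (2 * i + 1)) with hX1
    set X2 := ∏ i ∈ range N, (1 - u ^ (2 * j + 1) * q ^ (2 * i + 2)) with hX2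
    set Y1 := ∏ i ∈ range N, (1 - a * q ^ (2 * i + 2)) with hY1
    set Y2 := ∏ i ∈ range N, (1 - u ^ (2 * j + 1) * q ^ (2 * i + 1)) with hY2
    have hX1U : IsU O X1 := IsU.prod N (fun i hi => hunit1 _ i hi)
    have hX2U : IsU O X2 := IsU.prod N (fun i hi => hunit2 _ i hi)
    have hY1U : IsU O Y1 := IsU.prod N (fun i hi => hunit2 _ i hi)
    have hY2U : IsU O Y2 := IsU.prod N (fun i hi => hunit1 _ i hi)
    have hcg : ∀ k m l : ℕ, Cg O (u - 1) (1 - u ^ k * q ^ m) (1 - u ^ l * q ^ m) := by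
      intro k m l
      have := ((cg_upow_one O huU.mem k).trans (cg_upow_one O huU.mem l).symm).mul_right
        (O.pow_mem hqm m)
      exact (Cg.refl 1).sub this
    have hC1 : Cg O (u - 1) X1 Y2 := by
      apply Cg.prod
      · intro i hi; exact hcg _ _ _
      · intro i hi; exact (hunit1 _ i hi).mem
      · intro i hi; exact (hunit1 _ i hi).mem
    have hC2 : Cg O (u - 1) X2 Y1 := by
      apply Cg.prod
      · intro i hi; exact hcg _ _ _
      · intro i hi; exact (hunit2 _ i hi).mem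
      · intro i hi; exact (hunit2 _ i hi).mem
    have hratio : B q ((2 * N + 1) * (j + 1)) =
        B q ((2 * N + 1) * j) * (G1 * G2⁻¹) * ((X1 * Y2⁻¹) * (X2 * Y1⁻¹)) := by
      rw [show (2 * N + 1) * (j + 1) = (2 * N + 1) * j + (2 * N + 1) from by ring, B_split, haq,
        hnum, hden]
      have e := geom_ratio hu1 (2 * j + 1) (hu2 (2 * j + 1))
      rw [← hG1, ← hG2] at e
      have e' : (1 - u ^ (2 * j + 1)) * (1 - u ^ (2 * j + 1 + 1))⁻¹ = G1 * G2⁻¹ := by
        rw [← div_eq_mul_inv, ← div_eq_mul_inv, e]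
      rw [mul_assoc (B q ((2 * N + 1) * j)), ← e']
      congr 1
      have n1 := hu2 (2 * j + 1)
      have n2 := hY1U.ne
      have n3 := hY2U.ne
      field_simp
    have hcoef : Cg O (u - 1) (G1 * G2⁻¹) (((2 * j + 1 : ℕ) : K) * ((2 * j + 2 : ℕ) : K)⁻¹) := by
      refine (cg_geom O huU.mem _).mul ?_ hG2U.inv_mem (natCast_mem O _)
      exact (cg_geom O huU.mem _).inv hG2U (h.hnat _ (by omega))
    have hXY1 : Cg O (u - 1) (X1 * Y2⁻¹) 1 := by
      have := hC1.mul_right hY2U.inv_mem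
      rwa [mul_inv_cancel₀ hY2U.ne] at this
    have hXY2 : Cg O (u - 1) (X2 * Y1⁻¹) 1 := by
      have := hC2.mul_right hY1U.inv_mem
      rwa [mul_inv_cancel₀ hY1U.ne] at this
    have hXYm : X2 * Y1⁻¹ ∈ O := (hX2U.mul hY1U.inv).mem
    have hXY : Cg O (u - 1) ((X1 * Y2⁻¹) * (X2 * Y1⁻¹)) 1 := by
      have := hXY1.mul hXY2 hXYm O.one_mem
      rwa [mul_one] at this
    rw [hratio]
    refine ⟨(ihU.mul (hG1U.mul hG2U.inv)).mul ((hX1U.mul hY2U.inv).mul (hX2U.mul hY1U.inv)), ?_⟩
    have hb : bet K (j + 1) = bet K j * (((2 * j + 1 : ℕ) : K) * ((2 * j + 2 : ℕ) : K)⁻¹) * 1 := by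
      rw [bet, prod_range_succ, ← bet, mul_one, div_eq_mul_inv]
    rw [hb]
    have hbm : bet K j ∈ O := by
      unfold bet
      apply O.prod_mem
      intro i _
      rw [div_eq_mul_inv]
      exact O.mul_mem (natCast_mem O _) (h.hnat _ (by omega)).inv_mem
    refine (ihC.mul hcoef (hG1U.mul hG2U.inv).mem hbm).mul hXY
      ((hX1U.mul hY2U.inv).mul (hX2U.mul hY1U.inv)).mem ?_
    exact O.mul_mem hbm (O.mul_mem (natCast_mem O _) (h.hnat _ (by omega)).inv_mem)

lemma Good.bet_mem (h : Good O q N) (j : ℕ) : bet K j ∈ O := by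
  unfold bet
  apply O.prod_mem
  intro i _
  rw [div_eq_mul_inv]
  exact O.mul_mem (natCast_mem O _) (h.hnat _ (by omega)).inv_mem

end Pool.Agent.Helper56.Dac
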