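import Mathlib
import Pool.Agent.Helper56.Dac.Block

/-! The block congruence, continued: the inner sum. -/

namespace Pool.Agent.Helper56.Dac

open Finset

variable {K : Type*} [Field K] {O : Subring K} {q : K} {N : ℕ}

/-- inner term -/
def ut (q a : K) (r : ℕ) : K :=
  (-1) ^ r * ((1 - a ^ 2 * q ^ (4 * r + 1)) / (1 - q)) * (a ^ r * q ^ (r ^ 2)) *
    ((∏ i ∈ range r, (1 - a * q ^ (2 * i + 1))) / ∏ i ∈ range r, (1 - a * q ^ (2 * i + 2))) ^ 3

lemma fac_num (O : Subring K) {u z : K} (hu : IsU O u) (hz : z ∈ O) (j : ℕ) :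
    Cg O ((u - 1) ^ 2)
      ((1 - u ^ (4 * j) * z) * (1 - u ^ (2 * j + 1) * z) * (1 - u⁻¹ * z))
      ((1 - u ^ (2 * j) * z) ^ 3) := by
  have hum := hu.mem
  have huim := hu.inv_mem
  set e := u - 1 with he
  have hem : e ∈ O := O.sub_mem hum O.one_mem
  have h1 : Cg O (e ^ 2) (1 - u ^ (4 * j) * z) (1 - (1 + 4 * j * e) * z) := by
    have := (cg_upow O hum (4 * j)).mul_right hz
    push_cast at this
    exact (Cg.refl 1).sub this
  have h2 : Cg O (e ^ 2) (1 - u ^ (2 * j + 1) * z) (1 - (1 + (2 * j + 1) * e) * z) := by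
    have := (cg_upow O hum (2 * j + 1)).mul_right hz
    push_cast at this
    exact (Cg.refl 1).sub this
  have h3 : Cg O (e ^ 2) (1 - u⁻¹ * z) (1 - (1 - e) * z) :=
    (Cg.refl 1).sub ((cg_uinv O hu).mul_right hz)
  have h4 : Cg O (e ^ 2) (1 - u ^ (2 * j) * z) (1 - (1 + 2 * j * e) * z) := by
    have := (cg_upow O hum (2 * j)).mul_right hz
    push_cast at this
    exact (Cg.refl 1).sub this
  have hj : (j : K) ∈ O := natCast_mem O j
  have h2m : (2 : K) ∈ O := by exact_mod_cast natCast_mem O 2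
  have h4m : (4 : K) ∈ O := by exact_mod_cast natCast_mem O 4
  have m1 : (1 : K) - (1 + 4 * j * e) * z ∈ O :=
    O.sub_mem O.one_mem (O.mul_mem (O.add_mem O.one_mem (O.mul_mem (O.mul_mem h4m hj) hem)) hz)
  have m2 : (1 : K) - u ^ (2 * j + 1) * z ∈ O :=
    O.sub_mem O.one_mem (O.mul_mem (O.pow_mem hum _) hz)
  have m2' : (1 : K) - (1 + (2 * j + 1) * e) * z ∈ O :=
    O.sub_mem O.one_mem (O.mul_mem (O.add_mem O.one_mem (O.mul_mem (O.add_mem (O.mul_mem h2m hj)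
      O.one_mem) hem)) hz)
  have m3 : (1 : K) - u⁻¹ * z ∈ O := O.sub_mem O.one_mem (O.mul_mem huim hz)
  have m4 : (1 : K) - u ^ (2 * j) * z ∈ O := O.sub_mem O.one_mem (O.mul_mem (O.pow_mem hum _) hz)
  have m4' : (1 : K) - (1 + 2 * j * e) * z ∈ O :=
    O.sub_mem O.one_mem (O.mul_mem (O.add_mem O.one_mem (O.mul_mem (O.mul_mem h2m hj) hem)) hz)
  have step1 := (h1.mul h2 m2 m1).mul h3 m3 (O.mul_mem m1 m2')
  have step2 := h4.pow m4 m4' 3
  refine (step1.trans ?_).trans step2.symm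
  refine ⟨z ^ 2 * (1 - z) * (-(2 * j) ^ 2 - 2 * j - 1) +
    e * z ^ 3 * ((2 * j) ^ 3 + 2 * (2 * j) ^ 2 + 2 * (2 * j)), ?_, by ring⟩
  have hs : (2 * j : K) ∈ O := O.mul_mem h2m hj
  refine O.add_mem (O.mul_mem (O.mul_mem (O.pow_mem hz _) (O.sub_mem O.one_mem hz)) ?_)
    (O.mul_mem (O.mul_mem hem (O.pow_mem hz _)) ?_)
  · exact O.sub_mem (O.sub_mem (O.neg_mem (O.pow_mem hs _)) hs) O.one_mem
  · exact O.add_mem (O.add_mem (O.pow_mem hs _) (O.mul_mem h2m (O.pow_mem hs _))) (O.mul_mem h2m hs)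

lemma fac_den (O : Subring K) {u z : K} (hu : IsU O u) (hz : z ∈ O) (j : ℕ) :
    Cg O ((u - 1) ^ 2)
      ((1 - z) * (1 - u ^ (2 * j) * u⁻¹ * z) * (1 - u ^ (4 * j + 1) * z))
      ((1 - u ^ (2 * j) * z) ^ 3) := by
  have hum := hu.mem
  have huim := hu.inv_mem
  set e := u - 1 with he
  have hem : e ∈ O := O.sub_mem hum O.one_mem
  have hj : (j : K) ∈ O := natCast_mem O j
  have h2m : (2 : K) ∈ O := by exact_mod_cast natCast_mem O 2
  have h4m : (4 : K) ∈ O := by exact_mod_cast natCast_mem O 4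
  have hs : (2 * j : K) ∈ O := O.mul_mem h2m hj
  have m0 : (1 : K) + 2 * j * e ∈ O := O.add_mem O.one_mem (O.mul_mem hs hem)
  have h1 : Cg O (e ^ 2) (1 - u ^ (2 * j) * u⁻¹ * z) (1 - (1 + 2 * j * e) * (1 - e) * z) := by
    have := (cg_upow O hum (2 * j)).mul (cg_uinv O hu) huim (by push_cast; exact m0)
    push_cast at this
    exact (Cg.refl 1).sub (this.mul_right hz)
  have h2 : Cg O (e ^ 2) (1 - u ^ (4 * j + 1) * z) (1 - (1 + (4 * j + 1) * e) * z) := by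
    have := (cg_upow O hum (4 * j + 1)).mul_right hz
    push_cast at this
    exact (Cg.refl 1).sub this
  have h4 : Cg O (e ^ 2) (1 - u ^ (2 * j) * z) (1 - (1 + 2 * j * e) * z) := by
    have := (cg_upow O hum (2 * j)).mul_right hz
    push_cast at this
    exact (Cg.refl 1).sub this
  have m1 : (1 : K) - z ∈ O := O.sub_mem O.one_mem hz
  have m2 : (1 : K) - u ^ (2 * j) * u⁻¹ * z ∈ O :=
    O.sub_mem O.one_mem (O.mul_mem (O.mul_mem (O.pow_mem hum _) huim) hz)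
  have m2' : (1 : K) - (1 + 2 * j * e) * (1 - e) * z ∈ O :=
    O.sub_mem O.one_mem (O.mul_mem (O.mul_mem m0 (O.sub_mem O.one_mem hem)) hz)
  have m3 : (1 : K) - u ^ (4 * j + 1) * z ∈ O :=
    O.sub_mem O.one_mem (O.mul_mem (O.pow_mem hum _) hz)
  have m4 : (1 : K) - u ^ (2 * j) * z ∈ O := O.sub_mem O.one_mem (O.mul_mem (O.pow_mem hum _) hz)
  have m4' : (1 : K) - (1 + 2 * j * e) * z ∈ O := O.sub_mem O.one_mem (O.mul_mem m0 hz)
  have step1 := ((Cg.refl (O := O) (e := e ^ 2) (1 - z)).mul h1 m2 m1).mul h2 m3 (O.mul_mem m1 m2')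
  have step2 := h4.pow m4 m4' 3
  refine (step1.trans ?_).trans step2.symm
  refine ⟨(1 - z) ^ 2 * (2 * j) * z + (1 - z) * z ^ 2 * ((2 * j - 1) * (2 * (2 * j) + 1) - 3 * (2 * j) ^ 2)
      + e * (z ^ 3 * (2 * j) ^ 3) - e * ((2 * (2 * j) + 1) * (2 * j) * (1 - z) * z ^ 2), ?_, ?_⟩
  · have h3m : (3 : K) ∈ O := by exact_mod_cast natCast_mem O 3
    refine O.sub_mem (O.add_mem (O.add_mem (O.mul_mem (O.mul_mem (O.pow_mem m1 _) hs) hz) ?_) ?_) ?_
    · refine O.mul_mem (O.mul_mem m1 (O.pow_mem hz _)) (O.sub_mem (O.mul_mem (O.sub_mem hs O.one_mem)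
        (O.add_mem (O.mul_mem h2m hs) O.one_mem)) (O.mul_mem h3m (O.pow_mem hs _)))
    · exact O.mul_mem hem (O.mul_mem (O.pow_mem hz _) (O.pow_mem hs _))
    · exact O.mul_mem hem (O.mul_mem (O.mul_mem (O.mul_mem (O.add_mem (O.mul_mem h2m hs) O.one_mem) hs)
        m1) (O.pow_mem hz _))
  · ring

/-- terms with `r > N` vanish modulo `e^2` -/
lemma Good.ut_large (h : Good O q N) (j r : ℕ) (hr1 : N + 1 ≤ r) (hr2 : r < 2 * N + 1) :
    Cg O ((q ^ (2 * N + 1) - 1) ^ 2) (ut q ((q ^ (2 * N + 1)) ^ (2 * j)) r) 0 := by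
  have hqm := h.hq.mem
  set u := q ^ (2 * N + 1) with hu
  have huU : IsU O u := h.u_unit
  set e := u - 1 with he
  have hem : e ∈ O := O.sub_mem huU.mem O.one_mem
  set a := u ^ (2 * j) with ha
  have ham : a ∈ O := O.pow_mem huU.mem _
  have hone : IsU O (1 - q) := by
    have := h.hU 1 (not_dvd_small le_rfl (by have := h.hN; omega))
    simpa using this
  have hfac : ∀ i, (1 - a * q ^ (2 * i + 1)) ∈ O := fun i =>
    O.sub_mem O.one_mem (O.mul_mem ham (O.pow_mem hqm _))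
  obtain ⟨z, hz, hnum⟩ : ∃ z ∈ O, ∏ i ∈ range r, (1 - a * q ^ (2 * i + 1)) = e * z := by
    rw [← mul_prod_erase (range r) _ (mem_range.mpr (show N < r by omega))]
    refine ⟨-(∑ t ∈ range (2 * j + 1), u ^ t) *
      ∏ i ∈ (range r).erase N, (1 - a * q ^ (2 * i + 1)), ?_, ?_⟩
    · exact O.mul_mem (O.neg_mem (O.sum_mem (fun i _ => O.pow_mem huU.mem _)))
        (O.prod_mem (fun i _ => hfac i))
    · have e1 := geom_sum_mul u (2 * j + 1)
      have e2 : a * q ^ (2 * N + 1) = u ^ (2 * j + 1) := by rw [ha, pow_succ u (2 * j), hu]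
      rw [e2]
      linear_combination (∏ i ∈ (range r).erase N, (1 - a * q ^ (2 * i + 1))) * e1
  have hden : IsU O (∏ i ∈ range r, (1 - a * q ^ (2 * i + 2))) :=
    IsU.prod r (fun i hi => h.unit_one_sub _ _ (not_dvd_even (by omega)))
  have hbr : (1 - a ^ 2 * q ^ (4 * r + 1)) / (1 - q) ∈ O := by
    rw [div_eq_mul_inv]
    exact O.mul_mem (O.sub_mem O.one_mem (O.mul_mem (O.pow_mem ham _) (O.pow_mem hqm _))) hone.inv_mem
  refine ⟨(-1) ^ r * ((1 - a ^ 2 * q ^ (4 * r + 1)) / (1 - q)) * (a ^ r * q ^ (r ^ 2)) *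
    (e * (z * (∏ i ∈ range r, (1 - a * q ^ (2 * i + 2)))⁻¹) ^ 3), ?_, ?_⟩
  · refine O.mul_mem (O.mul_mem (O.mul_mem (O.pow_mem (O.neg_mem O.one_mem) _) hbr)
      (O.mul_mem (O.pow_mem ham _) (O.pow_mem hqm _))) (O.mul_mem hem (O.pow_mem
      (O.mul_mem hz hden.inv_mem) _))
  · unfold ut
    rw [hnum, div_eq_mul_inv (e * z)]
    ring

/-- comparison of the inner term with the summable term -/
lemma Good.ut_small (h : Good O q N) (j r : ℕ) (hr : r < N + 1) :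
    Cg O ((q ^ (2 * N + 1) - 1) ^ 2) (ut q ((q ^ (2 * N + 1)) ^ (2 * j)) r)
      (F ((q ^ (2 * N + 1)) ^ (4 * j) * q) ((q ^ (2 * N + 1)) ^ (2 * j + 1) * q) (q ^ 2) N r *
        (P (q ^ 2) ((q ^ (2 * N + 1)) ^ (4 * j) * q) (N + 1) /
          P (q ^ 2) ((q ^ (2 * N + 1)) ^ (4 * j) * q * q ^ 2 / ((q ^ (2 * N + 1)) ^ (2 * j + 1) * q)) N)
          / (1 - q)) := by
  have hqm := h.hq.mem
  have hq0 := h.hq.ne
  have hNN := h.hN
  set u := q ^ (2 * N + 1) with hu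
  have huU : IsU O u := h.u_unit
  have hu0 : u ≠ 0 := huU.ne
  have hone : IsU O (1 - q) := by
    have := h.hU 1 (not_dvd_small le_rfl (by omega))
    simpa using this
  have e1 : u ^ (4 * j) * q * q ^ 2 / (u ^ (2 * j + 1) * q) = u ^ (2 * j) * u⁻¹ * q ^ 2 := by
    have : u ^ (4 * j) = u ^ (2 * j) * u ^ (2 * j) := by rw [← pow_add]; congr 1; ring
    rw [this, pow_succ u (2 * j)]
    field_simp
  have e2 : ((q ^ 2)⁻¹) ^ N = u⁻¹ * q := by
    have : u = (q ^ 2) ^ N * q := by rw [hu, pow_succ, pow_mul]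
    rw [this, inv_pow]
    field_simp
  have e3 : u ^ (4 * j) * q * (q ^ 2) ^ (N + 1) = u ^ (4 * j + 1) * q ^ 2 := by
    rw [pow_succ u (4 * j), hu, mul_assoc, mul_assoc]
    congr 1
    ring
  have e4 : u ^ (4 * j + 1) * q ^ 2 / (u ^ (2 * j + 1) * q) = u ^ (2 * j) * q := by
    have : u ^ (4 * j + 1) = u ^ (2 * j) * u ^ (2 * j + 1) := by rw [← pow_add]; congr 1; ring
    rw [this]
    field_simp
  have hPA : P (q ^ 2) (u ^ (4 * j) * q) (N + 1) ≠ 0 := by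
    apply P_ne_zero
    intro i _
    have : u ^ (4 * j) * q * (q ^ 2) ^ i = q ^ ((2 * N + 1) * (4 * j) + (2 * i + 1)) := by
      rw [hu]; ring
    rw [this]
    exact h.hne _ (by omega)
  have hPc : P (q ^ 2) (u ^ (2 * j) * u⁻¹ * q ^ 2) N ≠ 0 := by
    apply P_ne_zero
    intro i _
    have : 1 - u ^ (2 * j) * u⁻¹ * q ^ 2 * (q ^ 2) ^ i =
        u⁻¹ * (u - q ^ ((2 * N + 1) * (2 * j) + (2 * i + 2))) := by
      have e5 : q ^ ((2 * N + 1) * (2 * j) + (2 * i + 2)) = u ^ (2 * j) * (q ^ 2 * (q ^ 2) ^ i) := by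
        rw [hu]; ring
      rw [e5]
      field_simp
    rw [this]
    refine mul_ne_zero (inv_ne_zero hu0) (h.u_sub_ne _ ?_)
    intro h0
    have : (2 * N + 1) * (2 * j) = 2 * ((2 * N + 1) * j) := by ring
    omega
  have hF : F (u ^ (4 * j) * q) (u ^ (2 * j + 1) * q) (q ^ 2) N r *
        (P (q ^ 2) (u ^ (4 * j) * q) (N + 1) /
          P (q ^ 2) (u ^ (4 * j) * q * q ^ 2 / (u ^ (2 * j + 1) * q)) N) / (1 - q) =
      (-1) ^ r * ((1 - (u ^ (2 * j)) ^ 2 * q ^ (4 * r + 1)) / (1 - q)) *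
        ((u ^ (2 * j)) ^ r * q ^ (r ^ 2)) *
        ((∏ i ∈ range r, ((1 - u ^ (4 * j) * q ^ (2 * i + 1)) * (1 - u ^ (2 * j + 1) * q ^ (2 * i + 1)) *
          (1 - u⁻¹ * q ^ (2 * i + 1)))) /
        ∏ i ∈ range r, ((1 - q ^ (2 * i + 2)) * (1 - u ^ (2 * j) * u⁻¹ * q ^ (2 * i + 2)) *
          (1 - u ^ (4 * j + 1) * q ^ (2 * i + 2)))) := by
    unfold F
    rw [e1, e2, e3, e4]
    have e5 : (1 : K) - u ^ (4 * j) * q * (q ^ 2) ^ (2 * r) = 1 - (u ^ (2 * j)) ^ 2 * q ^ (4 * r + 1) := by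
      ring
    have e6 : (q ^ 2) ^ (r * (r - 1) / 2) * (u ^ (2 * j) * q) ^ r = (u ^ (2 * j)) ^ r * q ^ (r ^ 2) := by
      rw [mul_pow, ← mul_assoc, mul_comm ((q ^ 2) ^ (r * (r - 1) / 2)), mul_assoc]
      congr 1
      rw [← pow_mul, ← pow_add]
      congr 1
      have : 2 * (r * (r - 1) / 2) = r * (r - 1) := by
        apply Nat.mul_div_cancel'
        exact (Nat.even_mul_pred_self r).two_dvd
      rw [this]
      cases r with
      | zero => rfl
      | succ r => simp; ring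
    rw [e5, mul_assoc ((-1) ^ r), e6]
    have e7 : P (q ^ 2) (u ^ (4 * j) * q) r * P (q ^ 2) (u ^ (2 * j + 1) * q) r * P (q ^ 2) (u⁻¹ * q) r =
        ∏ i ∈ range r, ((1 - u ^ (4 * j) * q ^ (2 * i + 1)) * (1 - u ^ (2 * j + 1) * q ^ (2 * i + 1)) *
          (1 - u⁻¹ * q ^ (2 * i + 1))) := by
      unfold P
      rw [← prod_mul_distrib, ← prod_mul_distrib]
      apply prod_congr rfl
      intro i _
      ring
    have e8 : P (q ^ 2) (q ^ 2) r * P (q ^ 2) (u ^ (2 * j) * u⁻¹ * q ^ 2) r * P (q ^ 2) (u ^ (4 * j + 1) * q ^ 2) r =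
        ∏ i ∈ range r, ((1 - q ^ (2 * i + 2)) * (1 - u ^ (2 * j) * u⁻¹ * q ^ (2 * i + 2)) *
          (1 - u ^ (4 * j + 1) * q ^ (2 * i + 2))) := by
      unfold P
      rw [← prod_mul_distrib, ← prod_mul_distrib]
      apply prod_congr rfl
      intro i _
      ring
    rw [← e7, ← e8]
    have hone' := hone.ne
    generalize P (q ^ 2) (u ^ (4 * j) * q) (N + 1) = X1 at *
    generalize P (q ^ 2) (u ^ (2 * j) * u⁻¹ * q ^ 2) N = X2 at *
    have e9 : X2 / X1 * (X1 / X2) = 1 := by field_simp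
    linear_combination (((1 - (u ^ (2 * j)) ^ 2 * q ^ (4 * r + 1)) * P (q ^ 2) (u ^ (4 * j) * q) r *
        P (q ^ 2) (u ^ (2 * j + 1) * q) r * P (q ^ 2) (u⁻¹ * q) r) /
        (P (q ^ 2) (q ^ 2) r * P (q ^ 2) (u ^ (2 * j) * u⁻¹ * q ^ 2) r * P (q ^ 2) (u ^ (4 * j + 1) * q ^ 2) r) *
        ((-1) ^ r * ((u ^ (2 * j)) ^ r * q ^ (r ^ 2))) / (1 - q)) * e9
  rw [hF]
  unfold ut
  set a := u ^ (2 * j) with ha
  have ham : a ∈ O := O.pow_mem huU.mem _
  have hnum : Cg O ((u - 1) ^ 2)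
      (∏ i ∈ range r, ((1 - u ^ (4 * j) * q ^ (2 * i + 1)) * (1 - u ^ (2 * j + 1) * q ^ (2 * i + 1)) *
          (1 - u⁻¹ * q ^ (2 * i + 1))))
      ((∏ i ∈ range r, (1 - a * q ^ (2 * i + 1))) ^ 3) := by
    rw [← prod_pow]
    apply Cg.prod
    · intro i _
      exact fac_num O huU (O.pow_mem hqm _) j
    · intro i _
      exact O.mul_mem (O.mul_mem (O.sub_mem O.one_mem (O.mul_mem (O.pow_mem huU.mem _) (O.pow_mem hqm _)))
        (O.sub_mem O.one_mem (O.mul_mem (O.pow_mem huU.mem _) (O.pow_mem hqm _))))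
        (O.sub_mem O.one_mem (O.mul_mem huU.inv_mem (O.pow_mem hqm _)))
    · intro i _
      exact O.pow_mem (O.sub_mem O.one_mem (O.mul_mem ham (O.pow_mem hqm _))) _
  have hdU1 : ∀ i < r, IsU O ((1 - q ^ (2 * i + 2)) * (1 - u ^ (2 * j) * u⁻¹ * q ^ (2 * i + 2)) *
          (1 - u ^ (4 * j + 1) * q ^ (2 * i + 2))) := by
    intro i hi
    have hd : ¬ (2 * N + 1) ∣ (2 * i + 2) := not_dvd_small (by omega) (by omega)
    exact ((h.hU _ hd).mul (h.unit_one_sub_inv _ _ hd)).mul (h.unit_one_sub _ _ hd)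
  have hdU2 : ∀ i < r, IsU O (1 - a * q ^ (2 * i + 2)) := by
    intro i hi
    have hd : ¬ (2 * N + 1) ∣ (2 * i + 2) := not_dvd_small (by omega) (by omega)
    exact h.unit_one_sub _ _ hd
  have hden : Cg O ((u - 1) ^ 2)
      (∏ i ∈ range r, ((1 - q ^ (2 * i + 2)) * (1 - u ^ (2 * j) * u⁻¹ * q ^ (2 * i + 2)) *
          (1 - u ^ (4 * j + 1) * q ^ (2 * i + 2))))
      ((∏ i ∈ range r, (1 - a * q ^ (2 * i + 2))) ^ 3) := by
    rw [← prod_pow]
    apply Cg.prod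
    · intro i _
      exact fac_den O huU (O.pow_mem hqm _) j
    · intro i hi
      exact (hdU1 i hi).mem
    · intro i hi
      exact ((hdU2 i hi).pow 3).mem
  have hU1 := IsU.prod r hdU1
  have hU2 := (IsU.prod r hdU2).pow 3
  have hbr : (1 - a ^ 2 * q ^ (4 * r + 1)) / (1 - q) ∈ O := by
    rw [div_eq_mul_inv]
    exact O.mul_mem (O.sub_mem O.one_mem (O.mul_mem (O.pow_mem ham _) (O.pow_mem hqm _))) hone.inv_mem
  refine Cg.mul_left ?_ (O.mul_mem (O.mul_mem (O.pow_mem (O.neg_mem O.one_mem) _) hbr)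
      (O.mul_mem (O.pow_mem ham _) (O.pow_mem hqm _)))
  rw [div_pow, div_eq_mul_inv, div_eq_mul_inv]
  refine (hnum.symm.mul (hden.inv hU1 hU2).symm hU2.inv_mem ?_)
  apply O.prod_mem
  intro i _
  exact O.mul_mem (O.mul_mem (O.sub_mem O.one_mem (O.mul_mem (O.pow_mem huU.mem _) (O.pow_mem hqm _)))
        (O.sub_mem O.one_mem (O.mul_mem (O.pow_mem huU.mem _) (O.pow_mem hqm _))))
        (O.sub_mem O.one_mem (O.mul_mem huU.inv_mem (O.pow_mem hqm _)))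

end Pool.Agent.Helper56.Dac
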