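import Mathlib
import Pool.Agent.Helper56.Dac.Ublock

/-! The congruence for the full sum, in the abstract setting. -/

namespace Pool.Agent.Helper56.Dac

open Finset

variable {K : Type*} [Field K] {O : Subring K} {q : K} {N : ℕ}

lemma Good.inner_sum (h : Good O q N) (j : ℕ) :
    Cg O ((q ^ (2 * N + 1) - 1) ^ 2)
      (∑ r ∈ range (2 * N + 1), ut q ((q ^ (2 * N + 1)) ^ (2 * j)) r)
      ((4 * j + 1) * ((-1) ^ N * q ^ (N ^ 2)) * ((1 - q ^ (2 * N + 1)) / (1 - q))) := by
  have hqm := h.hq.mem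
  have hq0 := h.hq.ne
  have hNN := h.hN
  set u := q ^ (2 * N + 1) with hu
  have huU : IsU O u := h.u_unit
  have hu0 : u ≠ 0 := huU.ne
  have hone : IsU O (1 - q) := by
    have := h.hU 1 (not_dvd_small le_rfl (by omega))
    simpa using this
  have e1 : u ^ (4 * j) * q * q ^ 2 / (u ^ (2 * j + 1) * q) = u ^ (2 * j) * u⁻¹ * q ^ 2 := by
    have : u ^ (4 * j) = u ^ (2 * j) * u ^ (2 * j) := by rw [← pow_add]; congr 1; ring
    rw [this, pow_succ u (2 * j)]
    field_simp
  -- split off the vanishing terms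
  have hlarge : Cg O ((u - 1) ^ 2) (∑ r ∈ range N, ut q (u ^ (2 * j)) (N + 1 + r)) 0 := by
    have := Cg.sum (O := O) (e := (u - 1) ^ 2) (f := fun r => ut q (u ^ (2 * j)) (N + 1 + r))
      (g := fun _ => 0) N (fun i hi => h.ut_large j (N + 1 + i) (by omega) (by omega))
    simpa using this
  have hsmall := Cg.sum (O := O) (e := (u - 1) ^ 2) (N + 1) (fun r hr => h.ut_small j r hr)
  rw [← hu] at hsmall
  simp only [e1] at hsmall
  rw [← sum_div, ← sum_mul] at hsmall
  have hwz := sum_F (u ^ (4 * j) * q) (u ^ (2 * j + 1) * q) (q ^ 2)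
    (mul_ne_zero (pow_ne_zero _ hu0) hq0) (pow_ne_zero _ hq0)
    (fun i => by
      have : q ^ 2 * (q ^ 2) ^ i = q ^ (2 * i + 2) := by ring
      rw [this]
      exact h.hne _ (by omega))
    (fun i => by
      have : u ^ (4 * j) * q * (q ^ 2) ^ i = q ^ ((2 * N + 1) * (4 * j) + (2 * i + 1)) := by
        rw [hu]; ring
      rw [this]
      exact h.hne _ (by omega))
    (fun i => by
      rw [e1]
      have : 1 - u ^ (2 * j) * u⁻¹ * q ^ 2 * (q ^ 2) ^ i =
          u⁻¹ * (u - q ^ ((2 * N + 1) * (2 * j) + (2 * i + 2))) := by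
        have e5 : q ^ ((2 * N + 1) * (2 * j) + (2 * i + 2)) = u ^ (2 * j) * (q ^ 2 * (q ^ 2) ^ i) := by
          rw [hu]; ring
        rw [e5]
        field_simp
      rw [this]
      refine mul_ne_zero (inv_ne_zero hu0) (h.u_sub_ne _ ?_)
      intro h0
      have : (2 * N + 1) * (2 * j) = 2 * ((2 * N + 1) * j) := by ring
      omega) N
  rw [hwz, one_mul] at hsmall
  -- evaluate the product
  set G := ∑ t ∈ range (4 * j + 1), u ^ t with hG
  have hPA : P (q ^ 2) (u ^ (4 * j) * q) (N + 1) =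
      (∏ i ∈ range N, (1 - u ^ (4 * j) * q ^ (2 * i + 1))) * ((1 - u) * G) := by
    rw [P_succ]
    congr 1
    · unfold P
      apply prod_congr rfl
      intro i _
      ring
    · have e2 : u ^ (4 * j) * q * (q ^ 2) ^ N = u ^ (4 * j + 1) := by
        rw [pow_succ u (4 * j), mul_assoc]
        congr 1
        rw [hu]
        ring
      rw [e2]
      have e3 := geom_sum_mul u (4 * j + 1)
      rw [← hG] at e3
      linear_combination e3
  have hPc : P (q ^ 2) (u ^ (2 * j) * u⁻¹ * q ^ 2) N =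
      ∏ i ∈ range N, (1 - u ^ (2 * j) * u⁻¹ * q ^ (2 * i + 2)) := by
    unfold P
    apply prod_congr rfl
    intro i _
    ring
  rw [hPA, hPc] at hsmall
  set X := ∏ i ∈ range N, (1 - u ^ (4 * j) * q ^ (2 * i + 1)) with hX
  set Y := ∏ i ∈ range N, (1 - u ^ (2 * j) * u⁻¹ * q ^ (2 * i + 2)) with hY
  set X0 := ∏ i ∈ range N, (1 - q ^ (2 * i + 1)) with hX0
  set Y0 := ∏ i ∈ range N, (1 - q ^ (2 * i + 2)) with hY0
  have hXU : IsU O X := IsU.prod N (fun i hi => h.unit_one_sub _ _ (not_dvd_small (by omega) (by omega)))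
  have hYU : IsU O Y := IsU.prod N (fun i hi => h.unit_one_sub_inv _ _ (not_dvd_small (by omega) (by omega)))
  have hX0U : IsU O X0 := IsU.prod N (fun i hi => h.hU _ (not_dvd_small (by omega) (by omega)))
  have hY0U : IsU O Y0 := IsU.prod N (fun i hi => h.hU _ (not_dvd_small (by omega) (by omega)))
  have hcX : Cg O (u - 1) X X0 := by
    apply Cg.prod
    · intro i _
      have := (cg_upow_one O huU.mem (4 * j)).mul_right (O.pow_mem hqm (2 * i + 1))
      rw [one_mul] at this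
      exact (Cg.refl 1).sub this
    · intro i hi
      exact (h.unit_one_sub _ _ (not_dvd_small (by omega) (by omega))).mem
    · intro i hi
      exact (h.hU _ (not_dvd_small (by omega) (by omega))).mem
  have hcY : Cg O (u - 1) Y Y0 := by
    apply Cg.prod
    · intro i _
      have h1 : Cg O (u - 1) u⁻¹ 1 := by
        have := (cg_u_one O u).inv huU IsU.one
        simpa using this
      have := ((cg_upow_one O huU.mem (2 * j)).mul h1 huU.inv_mem O.one_mem).mul_right
        (O.pow_mem hqm (2 * i + 2))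
      rw [one_mul, one_mul] at this
      exact (Cg.refl 1).sub this
    · intro i hi
      exact (h.unit_one_sub_inv _ _ (not_dvd_small (by omega) (by omega))).mem
    · intro i hi
      exact (h.hU _ (not_dvd_small (by omega) (by omega))).mem
  have hz0 := h.zero_order
  rw [← hu, ← hX0, ← hY0] at hz0
  have hXY : Cg O (u - 1) (X * Y⁻¹) ((-1) ^ N * q ^ (N ^ 2)) := by
    have h1 := (hcX.trans hz0).mul (hcY.inv hYU hY0U) hYU.inv_mem
      (O.mul_mem (O.mul_mem (O.pow_mem (O.neg_mem O.one_mem) _) (O.pow_mem hqm _)) hY0U.mem)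
    refine h1.trans (Cg.of_eq ?_)
    rw [mul_assoc, mul_inv_cancel₀ hY0U.ne, mul_one]
  have hGc : Cg O (u - 1) G (4 * j + 1) := by
    have := cg_geom O huU.mem (4 * j + 1)
    push_cast at this
    exact this
  have hGm : G ∈ O := O.sum_mem (fun i _ => O.pow_mem huU.mem _)
  have h4j : (4 * j + 1 : K) ∈ O := by exact_mod_cast natCast_mem O (4 * j + 1)
  have hGXY : Cg O (u - 1) (G * (X * Y⁻¹)) ((4 * j + 1) * ((-1) ^ N * q ^ (N ^ 2))) :=
    hGc.mul hXY (hXU.mul hYU.inv).mem h4j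
  have hfin := hGXY.mul_e (w := -(1 - q)⁻¹) (O.neg_mem hone.inv_mem)
  have hsplit : ∑ r ∈ range (2 * N + 1), ut q (u ^ (2 * j)) r =
      (∑ r ∈ range (N + 1), ut q (u ^ (2 * j)) r) + ∑ r ∈ range N, ut q (u ^ (2 * j)) (N + 1 + r) := by
    rw [show 2 * N + 1 = (N + 1) + N from by ring, sum_range_add]
  rw [hsplit]
  have htot := hsmall.add hlarge
  refine (htot.trans ?_)
  rw [add_zero]
  refine (Cg.of_eq ?_).trans (hfin.trans (Cg.of_eq ?_))
  · rw [div_eq_mul_inv, div_eq_mul_inv]; ring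
  · rw [div_eq_mul_inv]; ring

/-- The general term of the sum. -/
def tm (q : K) (k : ℕ) : K :=
  (-1) ^ k * ((1 - q ^ (4 * k + 1)) / (1 - q)) * q ^ (k ^ 2) * (B q k) ^ 3

lemma tm_split (q : K) (N j r : ℕ) :
    tm q ((2 * N + 1) * j + r) =
      ((-1) ^ j * (q ^ (2 * N + 1)) ^ (j ^ 2 * (2 * N + 1)) * (B q ((2 * N + 1) * j)) ^ 3) *
        ut q ((q ^ (2 * N + 1)) ^ (2 * j)) r := by
  have haq : q ^ (2 * ((2 * N + 1) * j)) = (q ^ (2 * N + 1)) ^ (2 * j) := by
    rw [← pow_mul]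
    congr 1
    ring
  have hs : ((-1 : K)) ^ ((2 * N + 1) * j + r) = (-1) ^ j * (-1) ^ r := by
    rw [pow_add, pow_mul, pow_succ, pow_mul]
    norm_num
  unfold tm ut
  rw [B_split, haq, hs]
  have e1 : q ^ (4 * ((2 * N + 1) * j + r) + 1) = ((q ^ (2 * N + 1)) ^ (2 * j)) ^ 2 * q ^ (4 * r + 1) := by
    rw [← pow_mul, ← pow_mul, ← pow_add]
    congr 1
    ring
  have e2 : q ^ (((2 * N + 1) * j + r) ^ 2) = (q ^ (2 * N + 1)) ^ (j ^ 2 * (2 * N + 1)) *
      (((q ^ (2 * N + 1)) ^ (2 * j)) ^ r * q ^ (r ^ 2)) := by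
    rw [← pow_mul, ← pow_mul, ← pow_mul, ← pow_add, ← pow_add]
    congr 1
    ring
  rw [e1, e2]
  ring

theorem Good.total (h : Good O q N) (m : ℕ) :
    Cg O ((q ^ (2 * N + 1) - 1) ^ 2)
      (∑ k ∈ range ((2 * N + 1) * m), tm q k)
      ((-1) ^ N * q ^ (N ^ 2) * ((1 - q ^ (2 * N + 1)) / (1 - q)) *
        ∑ j ∈ range m, (-1) ^ j * (4 * j + 1) * (bet K j) ^ 3) := by
  have hqm := h.hq.mem
  have hNN := h.hN
  have hone : IsU O (1 - q) := by
    have := h.hU 1 (not_dvd_small le_rfl (by omega))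
    simpa using this
  induction m with
  | zero => simpa using Cg.refl 0
  | succ m ih =>
    rw [show (2 * N + 1) * (m + 1) = (2 * N + 1) * m + (2 * N + 1) from by ring, sum_range_add,
      sum_range_succ _ m, mul_add]
    refine ih.add ?_
    simp only [tm_split]
    rw [← mul_sum]
    have hin := h.inner_sum m
    have hBb := h.B_block m
    set u := q ^ (2 * N + 1) with hu
    have huU : IsU O u := h.u_unit
    set w := (-1) ^ m * u ^ (m ^ 2 * (2 * N + 1)) * B q ((2 * N + 1) * m) ^ 3 with hw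
    have hwm : w ∈ O := O.mul_mem (O.mul_mem (O.pow_mem (O.neg_mem O.one_mem) _)
      (O.pow_mem huU.mem _)) (O.pow_mem hBb.1.mem _)
    have hwc : Cg O (u - 1) w ((-1) ^ m * (bet K m) ^ 3) := by
      have h1 := ((cg_upow_one O huU.mem (m ^ 2 * (2 * N + 1))).mul
        (hBb.2.pow hBb.1.mem (h.bet_mem m) 3) (O.pow_mem hBb.1.mem _) O.one_mem).mul_left
        (O.pow_mem (O.neg_mem O.one_mem) m)
      rw [one_mul, ← mul_assoc] at h1
      exact h1
    have h1 := hin.mul_left hwm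
    refine h1.trans ?_
    have h4j : (4 * m + 1 : K) ∈ O := by exact_mod_cast natCast_mem O (4 * m + 1)
    have h2 := hwc.mul_e (w := (4 * m + 1) * ((-1) ^ N * q ^ (N ^ 2)) * (-(1 - q)⁻¹))
      (O.mul_mem (O.mul_mem h4j (O.mul_mem (O.pow_mem (O.neg_mem O.one_mem) _) (O.pow_mem hqm _)))
        (O.neg_mem hone.inv_mem))
    refine (Cg.of_eq ?_).trans (h2.trans (Cg.of_eq ?_))
    · rw [div_eq_mul_inv]; ring
    · rw [div_eq_mul_inv]; ring

end Pool.Agent.Helper56.Dac
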