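import Mathlib
import Pool.Agent.Helper56.Dac.Total

/-! The degenerate case `n = 1`. -/

namespace Pool.Agent.Helper56.Dac

open Finset

/-- rational version of `bet` -/
def betQ (j : ℕ) : ℚ := ∏ l ∈ range j, ((2 * l + 1 : ℕ) : ℚ) / ((2 * l + 2 : ℕ) : ℚ)

/-- first order coefficient -/
def dco (k : ℕ) : ℚ := (4 * k + 1) * (k ^ 2 + k / 2) * (betQ k) ^ 3

lemma betQ_succ (j : ℕ) : betQ (j + 1) = betQ j * ((2 * j + 1) / (2 * j + 2)) := by
  unfold betQ
  rw [prod_range_succ]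
  push_cast
  ring

lemma betQ_pos (j : ℕ) : 0 < betQ j := by
  unfold betQ
  apply prod_pos
  intro i _
  positivity

lemma dco_lt (k : ℕ) (hk : 1 ≤ k) : dco k < dco (k + 1) := by
  unfold dco
  rw [betQ_succ]
  have hb := betQ_pos k
  have hb3 : 0 < betQ k ^ 3 := by positivity
  rw [mul_pow, mul_comm (betQ k ^ 3), ← mul_assoc]
  apply mul_lt_mul_of_pos_right _ hb3
  push_cast
  obtain ⟨x, rfl⟩ : ∃ x : ℕ, k = x + 1 := ⟨k - 1, by omega⟩
  push_cast
  have hx : (0 : ℚ) ≤ x := Nat.cast_nonneg x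
  rw [div_pow, mul_div_assoc', lt_div_iff₀ (by positivity)]
  nlinarith [pow_nonneg hx 2, pow_nonneg hx 3, pow_nonneg hx 4, pow_nonneg hx 5, pow_nonneg hx 6]

lemma dsum_ne (m : ℕ) (hm : 2 ≤ m) : (∑ k ∈ range m, (-1) ^ k * dco k) ≠ 0 := by
  have key : ∀ m : ℕ, 2 ≤ m → 0 < (-1) ^ (m + 1) * (∑ k ∈ range m, (-1) ^ k * dco k) ∧
      (-1) ^ (m + 1) * (∑ k ∈ range m, (-1) ^ k * dco k) ≤ dco (m - 1) := by
    intro m hm
    induction m, hm using Nat.le_induction with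
    | base =>
      norm_num [sum_range_succ, dco, betQ]
    | succ m hm ih =>
      obtain ⟨i1, i2⟩ := ih
      rw [sum_range_succ]
      have e1 : ((-1 : ℚ)) ^ (m + 1 + 1) * (∑ k ∈ range m, (-1) ^ k * dco k + (-1) ^ m * dco m) =
          dco m - (-1) ^ (m + 1) * (∑ k ∈ range m, (-1) ^ k * dco k) := by
        have : ((-1 : ℚ)) ^ m * (-1) ^ m = 1 := by rw [← mul_pow]; norm_num
        rw [pow_succ, pow_succ]
        linear_combination dco m * this
      rw [e1]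
      have h2 : dco (m - 1) < dco m := by
        have := dco_lt (m - 1) (by omega)
        rwa [show m - 1 + 1 = m from by omega] at this
      constructor
      · linarith
      · simp only [Nat.add_sub_cancel]
        linarith
  intro h0
  have := (key m hm).1
  rw [h0] at this
  simp at this

variable {K : Type*} [Field K] [CharZero K]

/-- Assumptions for `n = 1`. -/
structure Good1 (O : Subring K) (q : K) : Prop where
  hq : q ∈ O
  hS : ∀ k : ℕ, 1 ≤ k → IsU O (∑ t ∈ range k, q ^ t)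
  hq1 : q - 1 ≠ 0
  hrat : ∀ r : ℚ, (r : K) ∈ O
  hnu : (q - 1)⁻¹ ∉ O

variable {O : Subring K} {q : K}

lemma Good1.geom (h : Good1 O q) (k : ℕ) :
    Cg O ((q - 1) ^ 2) (∑ t ∈ range k, q ^ t) ((k : K) + ((k * (k - 1) / 2 : ℚ) : K) * (q - 1)) := by
  induction k with
  | zero => exact Cg.of_eq (by simp)
  | succ k ih =>
    rw [sum_range_succ]
    refine (ih.add (cg_upow O h.hq k)).trans (Cg.of_eq ?_)
    push_cast
    ring

omit [CharZero K] in
lemma Good1.inv_of (_h : Good1 O q) {x y : K} (hx : IsU O x) (hxy : Cg O ((q - 1) ^ 2) (x * y) 1) :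
    Cg O ((q - 1) ^ 2) x⁻¹ y := by
  have := (hxy.symm).mul_left hx.inv_mem
  rwa [mul_one, inv_mul_cancel_left₀ hx.ne] at this

lemma Good1.B_first (h : Good1 O q) (k : ℕ) :
    B q k ∈ O ∧ Cg O ((q - 1) ^ 2) (B q k) (((betQ k : ℚ) : K) * (1 - ((k / 2 : ℚ) : K) * (q - 1))) := by
  have hem : q - 1 ∈ O := O.sub_mem h.hq O.one_mem
  induction k with
  | zero => exact ⟨by simp [B, O.one_mem], Cg.of_eq (by simp [B, betQ])⟩
  | succ k ih =>
    obtain ⟨ihm, ihc⟩ := ih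
    set G1 := ∑ t ∈ range (2 * k + 1), q ^ t with hG1
    set G2 := ∑ t ∈ range (2 * k + 2), q ^ t with hG2
    have hU2 : IsU O G2 := h.hS _ (by omega)
    have hG1m : G1 ∈ O := O.sum_mem (fun i _ => O.pow_mem h.hq _)
    have hB : B q (k + 1) = B q k * (G1 * G2⁻¹) := by
      unfold B
      rw [prod_range_succ, prod_range_succ, mul_div_mul_comm]
      congr 1
      have e1 := geom_sum_mul q (2 * k + 1)
      have e2 := geom_sum_mul q (2 * k + 2)
      rw [← hG1] at e1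
      rw [← hG2] at e2
      have e3 : 1 - q ^ (2 * k + 1) = -(G1 * (q - 1)) := by linear_combination e1
      have e4 : 1 - q ^ (2 * k + 2) = -(G2 * (q - 1)) := by linear_combination e2
      rw [e3, e4]
      have := hU2.ne
      have := h.hq1
      field_simp
    have h1 := h.geom (2 * k + 1)
    have h2 := h.geom (2 * k + 2)
    rw [← hG1] at h1
    rw [← hG2] at h2
    have hr := h.hrat
    have hinv : Cg O ((q - 1) ^ 2) G2⁻¹
        (((1 / (2 * k + 2) : ℚ) : K) * (1 - (((2 * k + 1) / 2 : ℚ) : K) * (q - 1))) := by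
      apply h.inv_of hU2
      have hm2 : ((1 / (2 * k + 2) : ℚ) : K) * (1 - (((2 * k + 1) / 2 : ℚ) : K) * (q - 1)) ∈ O :=
        O.mul_mem (hr _) (O.sub_mem O.one_mem (O.mul_mem (hr _) hem))
      refine (h2.mul_right hm2).trans ?_
      refine ⟨-(((2 * k + 1) / 2 : ℚ) : K) * (((2 * k + 1) / 2 : ℚ) : K),
        O.mul_mem (O.neg_mem (hr _)) (hr _), ?_⟩
      push_cast
      have : (2 * (k : K) + 2) ≠ 0 := by exact_mod_cast (Nat.succ_ne_zero (2 * k + 1))
      field_simp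
      ring
    have hm3 : ((2 * k + 1 : ℕ) : K) + (((2 * k + 1 : ℕ) * ((2 * k + 1 : ℕ) - 1) / 2 : ℚ) : K) * (q - 1) ∈ O :=
      O.add_mem (natCast_mem O _) (O.mul_mem (hr _) hem)
    have h3 := h1.mul hinv hU2.inv_mem hm3
    have hm4 : ((betQ k : ℚ) : K) * (1 - ((k / 2 : ℚ) : K) * (q - 1)) ∈ O :=
      O.mul_mem (hr _) (O.sub_mem O.one_mem (O.mul_mem (hr _) hem))
    have h4 := ihc.mul h3 (O.mul_mem hG1m hU2.inv_mem) hm4
    refine ⟨by rw [hB]; exact O.mul_mem ihm (O.mul_mem hG1m hU2.inv_mem), ?_⟩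
    rw [hB]
    refine h4.trans ?_
    rw [betQ_succ]
    -- explicit witness
    have hk : (2 * (k : K) + 2) ≠ 0 := by exact_mod_cast (Nat.succ_ne_zero (2 * k + 1))
    refine ⟨((betQ k * ((2 * k + 1) / (2 * k + 2)) : ℚ) : K) *
      (((-(k * (2 * k + 1) / 2) - k / 2 * k + k / 2 * ((2 * k + 1) / 2) : ℚ) : K) +
        ((k / 2 * (k * (2 * k + 1) / 2) : ℚ) : K) * (q - 1)), ?_, ?_⟩
    · exact O.mul_mem (hr _) (O.add_mem (hr _) (O.mul_mem (hr _) hem))
    · push_cast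
      field_simp
      ring

lemma betQ_cast (j : ℕ) : ((betQ j : ℚ) : K) = bet K j := by
  unfold betQ bet
  push_cast
  rfl

lemma Good1.tm_first (h : Good1 O q) (k : ℕ) :
    Cg O ((q - 1) ^ 2) (tm q k) ((-1) ^ k * (4 * k + 1) * (bet K k) ^ 3 +
      (((-1) ^ k * dco k : ℚ) : K) * (q - 1)) := by
  have hem : q - 1 ∈ O := O.sub_mem h.hq O.one_mem
  have hr := h.hrat
  obtain ⟨hBm, hBc⟩ := h.B_first k
  have h1 := h.geom (4 * k + 1)
  have h2 := cg_upow O h.hq (k ^ 2)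
  have e0 : (1 - q ^ (4 * k + 1)) / (1 - q) = ∑ t ∈ range (4 * k + 1), q ^ t := by
    have e1 := geom_sum_mul q (4 * k + 1)
    have : 1 - q ≠ 0 := by
      intro h0
      apply h.hq1
      linear_combination -h0
    rw [div_eq_iff this]
    linear_combination e1
  unfold tm
  rw [e0]
  set β : K := ((betQ k : ℚ) : K) with hβ
  have hβm : β ∈ O := hr _
  have hkm : (k : K) ∈ O := natCast_mem O k
  have h3 := hBc.pow hBm (O.mul_mem hβm (O.sub_mem O.one_mem (O.mul_mem (hr _) hem))) 3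
  have hm1 : ((4 * k + 1 : ℕ) : K) + (((4 * k + 1 : ℕ) * ((4 * k + 1 : ℕ) - 1) / 2 : ℚ) : K) * (q - 1) ∈ O :=
    O.add_mem (natCast_mem O _) (O.mul_mem (hr _) hem)
  have h4 := (h1.mul h2 (O.pow_mem h.hq _) hm1)
  have hm2 : (1 : K) + ((k ^ 2 : ℕ) : K) * (q - 1) ∈ O :=
    O.add_mem O.one_mem (O.mul_mem (natCast_mem O _) hem)
  have h5 := (h4.mul h3 (O.pow_mem hBm _) (O.mul_mem hm1 hm2)).mul_left
    (O.pow_mem (O.neg_mem O.one_mem) k)
  refine (Cg.of_eq (by ring)).trans (h5.trans ?_)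
  rw [← betQ_cast, ← hβ]
  -- expand: the remaining identity is polynomial in `e = q - 1`
  set e := q - 1 with he
  -- linear factors
  have key : ∃ z ∈ O, ((4 * k + 1 : K) + (4 * k + 1) * (2 * k) * e) * (1 + k ^ 2 * e) *
      (1 - ((k / 2 : ℚ) : K) * e) ^ 3 - ((4 * k + 1) + (4 * k + 1) * (k ^ 2 + ((k / 2 : ℚ) : K)) * e) = e ^ 2 * z := by
    have hs : ((k / 2 : ℚ) : K) ∈ O := hr _
    have hk2 : (k : K) = 2 * ((k / 2 : ℚ) : K) := by push_cast; ring
    have h4k : (4 * k + 1 : K) ∈ O := by exact_mod_cast natCast_mem O (4 * k + 1)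
    generalize ((k / 2 : ℚ) : K) = s at *
    have h2m : (2 : K) ∈ O := by exact_mod_cast natCast_mem O 2
    have h3m : (3 : K) ∈ O := by exact_mod_cast natCast_mem O 3
    refine ⟨(4 * k + 1) * (((2 * k) * k ^ 2 - 3 * s * (2 * k + k ^ 2) + 3 * s ^ 2)
        + e * (3 * s ^ 2 * (2 * k + k ^ 2) - 3 * s * (2 * k * k ^ 2) - s ^ 3)
        + e * e * (3 * s ^ 2 * (2 * k * k ^ 2) - s ^ 3 * (2 * k + k ^ 2))
        - e * e * e * (s ^ 3 * (2 * k * k ^ 2))), ?_, ?_⟩
    · have hA : (2 * k : K) ∈ O := O.mul_mem h2m hkm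
      have hB2 : (k : K) ^ 2 ∈ O := O.pow_mem hkm _
      have hC : (2 * k * k ^ 2 : K) ∈ O := O.mul_mem hA hB2
      have hD : (2 * k + k ^ 2 : K) ∈ O := O.add_mem hA hB2
      have h3s : 3 * s ∈ O := O.mul_mem h3m hs
      have h3s2 : 3 * s ^ 2 ∈ O := O.mul_mem h3m (O.pow_mem hs _)
      have hs3 : s ^ 3 ∈ O := O.pow_mem hs _
      refine O.mul_mem h4k (O.sub_mem (O.add_mem (O.add_mem ?_ ?_) ?_) ?_)
      · exact O.add_mem (O.sub_mem hC (O.mul_mem h3s hD)) h3s2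
      · exact O.mul_mem hem (O.sub_mem (O.sub_mem (O.mul_mem h3s2 hD) (O.mul_mem h3s hC)) hs3)
      · exact O.mul_mem (O.mul_mem hem hem) (O.sub_mem (O.mul_mem h3s2 hC) (O.mul_mem hs3 hD))
      · exact O.mul_mem (O.mul_mem (O.mul_mem hem hem) hem) (O.mul_mem hs3 hC)
    · have hs' : s = (k : K) / 2 := by rw [hk2]; ring
      rw [hs']
      ring
  obtain ⟨z, hz, hzz⟩ := key
  refine ⟨(-1) ^ k * β ^ 3 * z, O.mul_mem (O.mul_mem (O.pow_mem (O.neg_mem O.one_mem) _)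
    (O.pow_mem hβm _)) hz, ?_⟩
  unfold dco
  push_cast at hzz ⊢
  rw [← hβ]
  linear_combination ((-1) ^ k * β ^ 3) * hzz

theorem Good1.total (h : Good1 O q) (m : ℕ) (hm : 1 ≤ m) :
    Cg O ((q - 1) ^ 2) (∑ k ∈ range m, tm q k)
      (∑ j ∈ range m, (-1) ^ j * (4 * j + 1) * (bet K j) ^ 3) ↔ m = 1 := by
  have hsum := Cg.sum (O := O) (e := (q - 1) ^ 2) m (fun k _ => h.tm_first k)
  rw [sum_add_distrib, ← sum_mul] at hsum
  constructor
  · intro hc
    by_contra hm1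
    have hd := dsum_ne m (by omega)
    obtain ⟨z, hz, hzz⟩ := hsum.symm.trans hc
    have hcast : (∑ i ∈ range m, (((-1) ^ i * dco i : ℚ) : K)) = ((∑ k ∈ range m, (-1) ^ k * dco k : ℚ) : K) := by
      push_cast
      rfl
    rw [hcast] at hzz
    set d : ℚ := ∑ k ∈ range m, (-1) ^ k * dco k with hd'
    have hdK : (d : K) ≠ 0 := by exact_mod_cast hd
    have he0 := h.hq1
    have h1 : (d : K) = (q - 1) * z := by
      apply mul_right_cancel₀ he0
      linear_combination hzz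
    apply h.hnu
    have h2 : (q - 1)⁻¹ = z * ((d⁻¹ : ℚ) : K) := by
      push_cast
      rw [h1]
      have hz0 : z ≠ 0 := by
        rintro rfl
        rw [mul_zero] at h1
        exact hdK h1
      field_simp
    rw [h2]
    exact O.mul_mem hz (h.hrat _)
  · rintro rfl
    refine hsum.trans (Cg.of_eq ?_)
    simp [dco]

end Pool.Agent.Helper56.Dac
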