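import Mathlib
import Pool.Agent.Helper56.Dac.One

/-! The local ring at `Φ_n` inside `ℚ(q)`. -/

namespace Pool.Agent.Helper56.Dac

open Finset Polynomial

noncomputable section

/-- Rational functions with denominator coprime to `Φ_n`. -/
def OO (n : ℕ) : Subring (RatFunc ℚ) where
  carrier := {x | ∃ P Q : ℚ[X], IsCoprime Q (cyclotomic n ℚ) ∧ Q ≠ 0 ∧
    x = algebraMap ℚ[X] (RatFunc ℚ) P / algebraMap ℚ[X] (RatFunc ℚ) Q}
  mul_mem' := by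
    rintro x y ⟨P, Q, hQ, hQ0, rfl⟩ ⟨P', Q', hQ', hQ0', rfl⟩
    refine ⟨P * P', Q * Q', hQ.mul_left hQ', mul_ne_zero hQ0 hQ0', ?_⟩
    rw [map_mul, map_mul, mul_div_mul_comm]
  one_mem' := ⟨1, 1, isCoprime_one_left, one_ne_zero, by simp⟩
  add_mem' := by
    rintro x y ⟨P, Q, hQ, hQ0, rfl⟩ ⟨P', Q', hQ', hQ0', rfl⟩
    refine ⟨P * Q' + Q * P', Q * Q', hQ.mul_left hQ', mul_ne_zero hQ0 hQ0', ?_⟩
    have h1 : algebraMap ℚ[X] (RatFunc ℚ) Q ≠ 0 := by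
      rwa [Ne, FaithfulSMul.algebraMap_eq_zero_iff]
    have h2 : algebraMap ℚ[X] (RatFunc ℚ) Q' ≠ 0 := by
      rwa [Ne, FaithfulSMul.algebraMap_eq_zero_iff]
    rw [div_add_div _ _ h1 h2]
    simp only [map_add, map_mul]
  zero_mem' := ⟨0, 1, isCoprime_one_left, one_ne_zero, by simp⟩
  neg_mem' := by
    rintro x ⟨P, Q, hQ, hQ0, rfl⟩
    exact ⟨-P, Q, hQ, hQ0, by rw [map_neg, neg_div]⟩

lemma amap_ne {Q : ℚ[X]} (h : Q ≠ 0) : algebraMap ℚ[X] (RatFunc ℚ) Q ≠ 0 := by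
  rwa [Ne, FaithfulSMul.algebraMap_eq_zero_iff]

lemma mem_OO_poly (n : ℕ) (P : ℚ[X]) : algebraMap ℚ[X] (RatFunc ℚ) P ∈ OO n :=
  ⟨P, 1, isCoprime_one_left, one_ne_zero, by simp⟩

lemma isU_poly {n : ℕ} {P : ℚ[X]} (h : IsCoprime P (cyclotomic n ℚ)) (h0 : P ≠ 0) :
    IsU (OO n) (algebraMap ℚ[X] (RatFunc ℚ) P) :=
  ⟨mem_OO_poly n P, ⟨1, P, h, h0, by simp⟩, amap_ne h0⟩

lemma amap_X_pow (i : ℕ) : algebraMap ℚ[X] (RatFunc ℚ) (X ^ i) = RatFunc.X ^ i := by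
  rw [map_pow, RatFunc.algebraMap_X]

lemma one_sub_ne (i : ℕ) (hi : 1 ≤ i) : (1 - X ^ i : ℚ[X]) ≠ 0 := by
  intro h
  have : (X ^ i - 1 : ℚ[X]) = 0 := by rw [← neg_sub, h, neg_zero]
  exact (Polynomial.X_pow_sub_C_ne_zero hi (1 : ℚ)) (by simpa using this)

lemma coprime_one_sub (n i : ℕ) (hn : 1 ≤ n) (h : ¬ n ∣ i) :
    IsCoprime (1 - X ^ i : ℚ[X]) (cyclotomic n ℚ) := by
  have hi : 0 < i := Nat.pos_of_ne_zero (by rintro rfl; exact h (dvd_zero n))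
  have h1 : (1 - X ^ i : ℚ[X]) = -(X ^ i - 1) := by ring
  rw [h1, IsCoprime.neg_left_iff, ← prod_cyclotomic_eq_X_pow_sub_one hi, IsCoprime.prod_left_iff]
  intro d hd
  apply cyclotomic.isCoprime_rat
  rintro rfl
  exact h (Nat.dvd_of_mem_divisors hd)

lemma coprime_X (n : ℕ) (hn : 1 ≤ n) : IsCoprime (X : ℚ[X]) (cyclotomic n ℚ) := by
  have h1 : IsCoprime (X : ℚ[X]) (X ^ n - 1) := by
    refine ⟨X ^ (n - 1), -1, ?_⟩
    obtain ⟨k, rfl⟩ : ∃ k, n = k + 1 := ⟨n - 1, by omega⟩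
    simp
    ring
  exact h1.of_isCoprime_of_dvd_right (cyclotomic.dvd_X_pow_sub_one n ℚ)

lemma coprime_geom (n k : ℕ) (hk : 1 ≤ k) :
    IsCoprime (∑ t ∈ range k, (X ^ n) ^ t : ℚ[X]) (cyclotomic n ℚ) := by
  have h1 : IsCoprime (∑ t ∈ range k, (X ^ n) ^ t : ℚ[X]) (X ^ n - 1) := by
    have h2 : (X ^ n - 1 : ℚ[X]) ∣ (∑ t ∈ range k, (X ^ n) ^ t) - C (k : ℚ) := by
      have : (∑ t ∈ range k, (X ^ n) ^ t : ℚ[X]) - C (k : ℚ) = ∑ t ∈ range k, ((X ^ n) ^ t - 1) := by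
        rw [sum_sub_distrib]
        simp
      rw [this]
      apply dvd_sum
      intro t _
      simpa using sub_dvd_pow_sub_pow (X ^ n : ℚ[X]) 1 t
    obtain ⟨w, hw⟩ := h2
    have hk' : (k : ℚ) ≠ 0 := by positivity
    refine ⟨C ((k : ℚ)⁻¹), -(C ((k : ℚ)⁻¹) * w), ?_⟩
    have h3 : C ((k : ℚ)⁻¹) * C (k : ℚ) = (1 : ℚ[X]) := by
      rw [← C_mul, inv_mul_cancel₀ hk', C_1]
    linear_combination C ((k : ℚ)⁻¹) * hw + h3
  exact h1.of_isCoprime_of_dvd_right (cyclotomic.dvd_X_pow_sub_one n ℚ)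

lemma geom_ne (n k : ℕ) (hn : 1 ≤ n) (hk : 1 ≤ k) : (∑ t ∈ range k, (X ^ n) ^ t : ℚ[X]) ≠ 0 := by
  intro h
  have := geom_sum_mul (X ^ n : ℚ[X]) k
  rw [h, zero_mul] at this
  apply one_sub_ne (n * k) (Nat.mul_pos hn hk)
  rw [pow_mul]
  linear_combination this

lemma ratCast_mem (n : ℕ) (r : ℚ) : (r : RatFunc ℚ) ∈ OO n := by
  have : (r : RatFunc ℚ) = algebraMap ℚ[X] (RatFunc ℚ) (C r) := by
    rw [← Polynomial.algebraMap_eq, ← IsScalarTower.algebraMap_apply ℚ ℚ[X] (RatFunc ℚ)]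
    simp
  rw [this]
  exact mem_OO_poly _ _

lemma good_inst (N : ℕ) (hN : 1 ≤ N) : Good (OO (2 * N + 1)) (RatFunc.X : RatFunc ℚ) N where
  hN := hN
  hq := by
    rw [← RatFunc.algebraMap_X]
    exact isU_poly (coprime_X _ (by omega)) X_ne_zero
  hU := by
    intro i hi
    have : (1 : RatFunc ℚ) - RatFunc.X ^ i = algebraMap ℚ[X] (RatFunc ℚ) (1 - X ^ i) := by
      rw [map_sub, amap_X_pow, map_one]
    rw [this]
    have hi0 : 1 ≤ i := Nat.pos_of_ne_zero (by rintro rfl; exact hi (dvd_zero _))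
    exact isU_poly (coprime_one_sub _ i (by omega) hi) (one_sub_ne i hi0)
  hS := by
    intro k hk
    have : ∑ t ∈ range k, ((RatFunc.X : RatFunc ℚ) ^ (2 * N + 1)) ^ t =
        algebraMap ℚ[X] (RatFunc ℚ) (∑ t ∈ range k, (X ^ (2 * N + 1)) ^ t) := by
      rw [map_sum]
      apply sum_congr rfl
      intro t _
      rw [map_pow, amap_X_pow]
    rw [this]
    exact isU_poly (coprime_geom _ k hk) (geom_ne _ k (by omega) hk)
  hne := by
    intro i hi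
    have : (1 : RatFunc ℚ) - RatFunc.X ^ i = algebraMap ℚ[X] (RatFunc ℚ) (1 - X ^ i) := by
      rw [map_sub, amap_X_pow, map_one]
    rw [this]
    exact amap_ne (one_sub_ne i hi)
  hnat := by
    intro k hk
    refine ⟨natCast_mem _ k, ?_, ?_⟩
    · have := ratCast_mem (2 * N + 1) ((k : ℚ)⁻¹)
      push_cast at this
      exact this
    · exact_mod_cast (show k ≠ 0 by omega)

lemma phi_unit (n : ℕ) (hn : 1 ≤ n) : ∃ w : RatFunc ℚ, IsU (OO n) w ∧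
    (RatFunc.X : RatFunc ℚ) ^ n - 1 = algebraMap ℚ[X] (RatFunc ℚ) (cyclotomic n ℚ) * w := by
  have h0 : (cyclotomic n ℚ) ≠ 0 := cyclotomic_ne_zero n ℚ
  have h1 : (X ^ n - 1 : ℚ[X]) = cyclotomic n ℚ * ∏ d ∈ n.properDivisors, cyclotomic d ℚ := by
    rw [← prod_cyclotomic_eq_X_pow_sub_one hn, ← Nat.insert_self_properDivisors (by omega : n ≠ 0),
      prod_insert Nat.self_notMem_properDivisors]
  refine ⟨algebraMap ℚ[X] (RatFunc ℚ) (∏ d ∈ n.properDivisors, cyclotomic d ℚ), isU_poly ?_ ?_, ?_⟩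
  · rw [IsCoprime.prod_left_iff]
    intro d hd
    apply cyclotomic.isCoprime_rat
    exact (Nat.mem_properDivisors.mp hd).2.ne
  · rw [prod_ne_zero_iff]
    intro d _
    exact cyclotomic_ne_zero d ℚ
  · rw [← map_mul, ← h1, map_sub, map_one, amap_X_pow]

lemma good1_inst : Good1 (OO 1) (RatFunc.X : RatFunc ℚ) where
  hq := by
    rw [← RatFunc.algebraMap_X]
    exact mem_OO_poly _ _
  hS := by
    intro k hk
    have : ∑ t ∈ range k, ((RatFunc.X : RatFunc ℚ)) ^ t =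
        algebraMap ℚ[X] (RatFunc ℚ) (∑ t ∈ range k, (X ^ 1) ^ t) := by
      rw [map_sum]
      apply sum_congr rfl
      intro t _
      rw [map_pow, amap_X_pow, pow_one]
    rw [this]
    exact isU_poly (coprime_geom _ k hk) (geom_ne _ k (by omega) hk)
  hq1 := by
    have : (RatFunc.X : RatFunc ℚ) - 1 = algebraMap ℚ[X] (RatFunc ℚ) (X - C 1) := by
      rw [map_sub, RatFunc.algebraMap_X]
      simp
    rw [this]
    exact amap_ne (X_sub_C_ne_zero 1)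
  hrat := ratCast_mem 1
  hnu := by
    rintro ⟨P, Q, hQ, hQ0, h⟩
    have h1 : (RatFunc.X : RatFunc ℚ) - 1 = algebraMap ℚ[X] (RatFunc ℚ) (X - C 1) := by
      rw [map_sub, RatFunc.algebraMap_X]
      simp
    rw [h1] at h
    have h2 := amap_ne (X_sub_C_ne_zero (1 : ℚ))
    have h3 := amap_ne hQ0
    have h4 : algebraMap ℚ[X] (RatFunc ℚ) Q = algebraMap ℚ[X] (RatFunc ℚ) (P * (X - C 1)) := by
      rw [map_mul]
      field_simp at h
      linear_combination h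
    have h5 : Q = P * (X - C 1) := (FaithfulSMul.algebraMap_injective ℚ[X] (RatFunc ℚ)) h4
    rw [cyclotomic_one, h5] at hQ
    have h6 : IsUnit (X - C 1 : ℚ[X]) := by
      have : IsCoprime (X - C 1 : ℚ[X]) (X - C 1) := by
        have := hQ.of_mul_left_right
        simpa using this
      exact isCoprime_self.mp this
    exact not_isUnit_X_sub_C (1 : ℚ) h6

/-- The congruence in polynomial terms. -/
lemma cg_iff (n : ℕ) (hn : 1 ≤ n) (A B : RatFunc ℚ) :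
    Cg (OO n) (((RatFunc.X : RatFunc ℚ) ^ n - 1) ^ 2) A B ↔
    ∃ P Q : ℚ[X], IsCoprime Q (cyclotomic n ℚ) ∧ (cyclotomic n ℚ) ^ 2 ∣ P ∧
      A - B = algebraMap ℚ[X] (RatFunc ℚ) P / algebraMap ℚ[X] (RatFunc ℚ) Q := by
  obtain ⟨w, hw, hX⟩ := phi_unit n hn
  have h0 := amap_ne (cyclotomic_ne_zero n ℚ)
  constructor
  · rintro ⟨z, hz, h⟩
    have hz' : w ^ 2 * z ∈ OO n := (OO n).mul_mem ((OO n).pow_mem hw.mem _) hz
    obtain ⟨P, Q, hQ, hQ0, hPQ⟩ := hz'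
    refine ⟨(cyclotomic n ℚ) ^ 2 * P, Q, hQ, Dvd.intro _ rfl, ?_⟩
    rw [h, hX, map_mul, map_pow, mul_div_assoc, ← hPQ]
    ring
  · rintro ⟨P, Q, hQ, ⟨P', rfl⟩, h⟩
    have hQ0 : Q ≠ 0 := by
      rintro rfl
      rw [isCoprime_zero_left] at hQ
      exact not_isUnit_of_degree_pos _ (degree_cyclotomic_pos n ℚ hn) hQ
    refine ⟨(w⁻¹) ^ 2 * (algebraMap ℚ[X] (RatFunc ℚ) P' / algebraMap ℚ[X] (RatFunc ℚ) Q),
      (OO n).mul_mem ((OO n).pow_mem hw.inv_mem _) ⟨P', Q, hQ, hQ0, rfl⟩, ?_⟩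
    rw [h, hX, map_mul, map_pow]
    have := hw.ne
    field_simp

end

end Pool.Agent.Helper56.Dac
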